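import Pool.Agent.Helper56.TH.Rec2
import Pool.Agent.Helper4.TH.SubsetSum
import Pool.Agent.Helper40.TH.Col
import Pool.Agent.Helper40.TH.Apart
import Pool.Agent.Helper91.TH.ExistsV

/-!
# The combinatorial core: `Export` from thin-HT (MP_6f1bc5_lc)
-/

set_option linter.unusedSectionVars false

universe u

namespace Pool.Agent.Helper56.TH

open Classical

variable {M : Type u} [CommSemiring M] [LinearOrder M] [IsStrictOrderedRing M]
  [CanonicallyOrderedAdd M] {S : Set (Set M)}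

/-- partial sums do not change where the coefficients vanish -/
theorem sum_const_of_zero (h : Base S) {χ x F : M → M} (hF : Fn S F)
    (hFs : ∀ j, F (j + 1) = F j + χ j * x j) {u v : M} (huv : u ≤ v)
    (hz : ∀ j, u ≤ j → j < v → χ j = 0) : F v = F u := by
  obtain ⟨d, rfl⟩ := exists_add_of_le huv
  have hd : Dec S (fun d' => F (u + d') = F u) :=
    h.eq (h.fn_comp hF (h.fn_add (h.fn_const u) h.fn_id)) (h.fn_const _)
  refine h.ind_le (P := fun d' => F (u + d') = F u) (n := d) hd (by rw [add_zero]) ?_ le_rfl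
  intro d' hd' ih
  rw [← add_assoc, hFs, hz (u + d') le_self_add (by gcongr), zero_mul, add_zero, ih]

theorem export_of_thin (h : Base S) (hT : ThinF S) : Export S := by
  intro p hp t Q hQ hanti
  obtain ⟨V, top, bot, hV, htop, hbot, hspec, hadd, hloc⟩ := exists_V h hp hQ
  obtain ⟨col, hcol, hcolspec⟩ := exists_col h hp t
  have hc : Fn S (fun n => col (V (top n) n)) :=
    h.fn_comp hcol (h.fn_comp₂ hV htop h.fn_id)
  obtain ⟨x, i, hx, hx0, hsep, hthin⟩ := exists_apart h hT hp hc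
  have hone : Fn S (fun j : M => j + 1) := h.fn_add h.fn_id (h.fn_const 1)
  have hx1 : Fn S (fun j => x (j + 1)) := h.fn_comp hx hone
  -- separation
  have hTx : Fn S (fun j => top (x j)) := h.fn_comp htop hx
  have hBx : Fn S (fun j => bot (x j)) := h.fn_comp hbot hx
  have hsep1 : ∀ j, top (x j) < bot (x (j + 1)) := by
    intro j
    obtain ⟨k, hk1, hk2⟩ := hsep j
    have h1 := (hspec (x j) (hx0 j)).1
    have h2 : top (x j) < k := (hp.lt_iff h).1 (lt_of_le_of_lt h1 hk1)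
    exact lt_of_lt_of_le h2 ((hspec _ (hx0 (j + 1))).2.2.2.2 k hk2)
  have hTB : ∀ j, bot (x j) ≤ top (x j) := fun j => (hspec _ (hx0 j)).2.2.2.1
  have hBmono : ∀ {j l : M}, j ≤ l → bot (x j) ≤ bot (x l) := fun hjl =>
    h.mono_of_succ hBx (fun j => (hTB j).trans (hsep1 j).le) hjl
  have hsepT : ∀ {j l : M}, j < l → top (x j) < bot (x l) := fun {j l} hjl =>
    lt_of_lt_of_le (hsep1 j) (hBmono (h.add_one_le_iff.2 hjl))
  -- adding one element on top
  have hstep : ∀ s u j l, 0 < u → top u = top (x j) → j < l →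
      V s (u + x l) = V s u + Q s (top (x j)) (bot (x l)) + V s (x l) ∧
        top (u + x l) = top (x l) ∧ 0 < u + x l := by
    intro s u j l hu htu hjl
    have h1 : u < p (top (x j) + 1) := by rw [← htu]; exact (hspec u hu).2.1
    have h2 : p (top (x j) + 1) ∣ x l :=
      (hp.dvd h (h.add_one_le_iff.2 (hsepT hjl))).trans (hspec _ (hx0 l)).2.2.1
    obtain ⟨e1, e2, -⟩ := hadd s u (x l) _ hu (hx0 l) h1 h2
    rw [htu] at e1
    exact ⟨e1, e2, lt_of_lt_of_le hu le_self_add⟩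
  refine ⟨fun j => bot (x (j + 1)), fun j => top (x (j + 1)), fun s j => V s (x (j + 1)),
    p (t + i + 1), h.fn_comp hbot hx1, h.fn_comp htop hx1,
    h.fn_comp₂ hV h.fn_p1 (h.fn_comp hx (h.fn_add h.fn_p2 (h.fn_const 1))), fun j => hTB _, fun j => hsep1 _,
    fun s s' j hss => hloc s s' _ hss, ?_⟩
  intro α β γ hα hβ hγ hαβγ hγα J hJ
  by_contra hcon
  push Not at hcon
  set m := p (t + i + 1) with hm
  set s := top (x (J + 1)) with hs
  have hm1 : 1 ≤ m := hp.one_le h _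
  -- the increments
  let L : M → M := fun k => V s (x (β k + 1)) + Q s (top (x (α k + 1))) (bot (x (β k + 1)))
    + Q s (top (x (β k + 1))) (bot (x (γ k + 1)))
  let R : M → M := fun k => Q s (top (x (α k + 1))) (bot (x (γ k + 1)))
  have hxα : Fn S (fun k => x (α k + 1)) := h.fn_comp hx (h.fn_add hα (h.fn_const 1))
  have hxα' : Fn S (fun k => x (α (p1 k) + 1)) :=
    h.fn_comp hx (h.fn_add (h.fn_comp hα h.fn_p1) (h.fn_const 1))
  have hxβ : Fn S (fun k => x (β k + 1)) := h.fn_comp hx (h.fn_add hβ (h.fn_const 1))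
  have hxβ' : Fn S (fun k => x (β (p1 k) + 1)) :=
    h.fn_comp hx (h.fn_add (h.fn_comp hβ h.fn_p1) (h.fn_const 1))
  have hxγ : Fn S (fun k => x (γ k + 1)) := h.fn_comp hx (h.fn_add hγ (h.fn_const 1))
  have hxγ' : Fn S (fun k => x (γ (p1 k) + 1)) :=
    h.fn_comp hx (h.fn_add (h.fn_comp hγ h.fn_p1) (h.fn_const 1))
  have hLf : Fn S L := h.fn_add (h.fn_add (h.fn_comp₂ hV (h.fn_const s) hxβ)
    (h.fn_comp₃ hQ (h.fn_const s) (h.fn_comp htop hxα) (h.fn_comp hbot hxβ)))
    (h.fn_comp₃ hQ (h.fn_const s) (h.fn_comp htop hxβ) (h.fn_comp hbot hxγ))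
  have hRf : Fn S R := h.fn_comp₃ hQ (h.fn_const s) (h.fn_comp htop hxα) (h.fn_comp hbot hxγ)
  have hRL : ∀ k < m, R k ≤ L k := by
    intro k hk
    have h1 : R k ≤ Q s (top (x (α k + 1))) (bot (x (β k + 1))) :=
      hanti _ _ _ _ (hBmono (by have := (hαβγ k hk).2.le; gcongr))
    calc R k ≤ Q s (top (x (α k + 1))) (bot (x (β k + 1))) := h1
      _ ≤ V s (x (β k + 1)) + Q s (top (x (α k + 1))) (bot (x (β k + 1))) := le_add_self
      _ ≤ L k := le_self_add
  let D : M → M := fun k => lst (fun d => d ≤ L k ∧ L k = R k + d)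
  have hDf : Fn S D := h.fn_lst_le hLf (P := fun d k => L k = R k + d)
    (h.eq (h.fn_comp hLf h.fn_p2) (h.fn_add (h.fn_comp hRf h.fn_p2) h.fn_p1))
  have hD2 : Dec₂ S (fun d k => L k = R k + d) :=
    h.eq (h.fn_comp hLf h.fn_p2) (h.fn_add (h.fn_comp hRf h.fn_p2) h.fn_p1)
  have hDspec : ∀ k < m, L k = R k + D k := by
    intro k hk
    obtain ⟨d, hd⟩ := exists_add_of_le (hRL k hk)
    have hex : ∃ y ≤ L k, L k = R k + y := ⟨d, by rw [hd]; exact le_add_self, hd⟩
    exact (h.lst_le_spec hD2 hex).2.1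
  have hnd : ∀ k < m, ¬ p t ∣ D k := by
    rintro k hk ⟨d, hd⟩
    exact hcon k hk d (by rw [← hd]; exact hDspec k hk)
  -- the index of the last element used after `k` triples
  obtain ⟨e, he, he0, hes⟩ := h.exists_rec₁ 0 (g := fun n _ => γ n + 1)
    (h.fn_add (h.fn_comp hγ h.fn_p1) (h.fn_const 1))
  have heα : ∀ k < m, e k ≤ α k := by
    intro k hk
    rcases eq_or_ne k 0 with rfl | hk0
    · rw [he0]; exact zero_le
    · obtain ⟨j, rfl⟩ := h.exists_pred (pos_iff_ne_zero.2 hk0)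
      rw [hes]
      exact h.add_one_le_iff.2 (hγα j hk)
  have hM1 : ∀ k ≤ m, ∀ k' < k, γ k' + 1 ≤ e k := by
    intro k hk
    have hd : Dec S (fun k => ∀ k' < k, γ k' + 1 ≤ e k) :=
      h.ball h.fn_id (P := fun k' k => γ k' + 1 ≤ e k)
        (h.le (h.fn_add (h.fn_comp hγ h.fn_p1) (h.fn_const 1)) (h.fn_comp he h.fn_p2))
    refine h.ind_le hd (n := m) (fun k' hk' => absurd hk' (not_lt.2 zero_le)) ?_ hk
    intro k hk ih k' hk'
    rw [hes]
    rcases (h.lt_add_one_iff.1 hk').lt_or_eq with h1 | rfl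
    · calc γ k' + 1 ≤ e k := ih k' h1
        _ ≤ α k := heα k hk
        _ ≤ γ k := ((hαβγ k hk).1.trans (hαβγ k hk).2).le
        _ ≤ γ k + 1 := le_self_add
    · exact le_rfl
  have hM2 : ∀ k k', k < k' → k' < m → γ k < α k' := fun k k' h1 h2 =>
    h.add_one_le_iff.1 ((hM1 k' h2.le k h1).trans (heα k' h2))
  have heJ : e m ≤ J := by
    obtain ⟨j, hj⟩ := h.exists_pred (h.pos_iff.2 hm1)
    rw [hj, hes]
    exact h.add_one_le_iff.2 (hJ j (by rw [hj]; exact h.lt_add_one_iff.2 le_rfl))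
  -- base sums
  obtain ⟨U₀, hU₀, U₀0, U₀s⟩ := h.exists_rec₁ (x 0)
    (g := fun n y => y + x (α n + 1) + x (γ n + 1))
    (h.fn_add (h.fn_add h.fn_p2 hxα') hxγ')
  let B : M := V s (U₀ m) + Q s (top (x (e m))) (bot (x (J + 1))) + V s (x (J + 1))
  obtain ⟨χ', hχ', hχ'01, hsub⟩ := subset_sum h hp hDf B t i hnd
  obtain ⟨F', hF', F'0, F's⟩ := h.exists_rec₁ B (g := fun n y => y + χ' n * D n)
    (h.fn_add h.fn_p2 (h.fn_mul (h.fn_comp hχ' h.fn_p1) (h.fn_comp hDf h.fn_p1)))
  obtain ⟨r, ε, hε, hF'm⟩ := hsub F' hF' F'0 F's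
  obtain ⟨U, hU, U0, Us⟩ := h.exists_rec₁ (x 0)
    (g := fun n y => y + x (α n + 1) + χ' n * x (β n + 1) + x (γ n + 1))
    (h.fn_add (h.fn_add (h.fn_add h.fn_p2 hxα')
      (h.fn_mul (h.fn_comp hχ' h.fn_p1) hxβ')) hxγ')
  -- the main invariant
  have hinv : ∀ k ≤ m, 0 < U₀ k ∧ top (U₀ k) = top (x (e k)) ∧ 0 < U k ∧
      top (U k) = top (x (e k)) ∧ V s (U k) + B = V s (U₀ k) + F' k := by
    intro k hk
    have hd : Dec S (fun k => 0 < U₀ k ∧ top (U₀ k) = top (x (e k)) ∧ 0 < U k ∧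
        top (U k) = top (x (e k)) ∧ V s (U k) + B = V s (U₀ k) + F' k) := by
      have hTe : Fn S (fun k => top (x (e k))) := h.fn_comp htop (h.fn_comp hx he)
      refine h.and (h.lt (h.fn_const 0) hU₀) (h.and (h.eq (h.fn_comp htop hU₀) hTe)
        (h.and (h.lt (h.fn_const 0) hU) (h.and (h.eq (h.fn_comp htop hU) hTe) (h.eq ?_ ?_))))
      · exact h.fn_add (h.fn_comp₂ hV (h.fn_const s) hU) (h.fn_const B)
      · exact h.fn_add (h.fn_comp₂ hV (h.fn_const s) hU₀) hF'
    refine h.ind_le hd (n := m) ?_ ?_ hk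
    · rw [U₀0, U0, he0, F'0]
      exact ⟨hx0 0, rfl, hx0 0, rfl, rfl⟩
    · rintro k hk ⟨i1, i2, i3, i4, i5⟩
      have hlt1 : e k < α k + 1 := h.lt_add_one_iff.2 (heα k hk)
      have hlt2 : α k + 1 < β k + 1 := by have := (hαβγ k hk).1; gcongr
      have hlt3 : β k + 1 < γ k + 1 := by have := (hαβγ k hk).2; gcongr
      -- base
      obtain ⟨a1, a2, a3⟩ := hstep s _ _ _ i1 i2 hlt1
      obtain ⟨b1, b2, b3⟩ := hstep s _ _ _ a3 a2 (hlt2.trans hlt3)
      rw [U₀s, hes]
      refine ⟨b3, b2, ?_⟩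
      obtain ⟨c1, c2, c3⟩ := hstep s _ _ _ i3 i4 hlt1
      rw [Us, F's]
      have hDk := hDspec k hk
      rcases hχ'01 k with h0 | h0
      · rw [h0, zero_mul, add_zero, zero_mul, add_zero]
        obtain ⟨d1, d2, d3⟩ := hstep s _ _ _ c3 c2 (hlt2.trans hlt3)
        refine ⟨d3, d2, ?_⟩
        rw [b1, a1, d1, c1]
        calc V s (U k) + Q s (top (x (e k))) (bot (x (α k + 1))) + V s (x (α k + 1)) +
              Q s (top (x (α k + 1))) (bot (x (γ k + 1))) + V s (x (γ k + 1)) + B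
            = (V s (U k) + B) + (Q s (top (x (e k))) (bot (x (α k + 1))) + V s (x (α k + 1)) +
              Q s (top (x (α k + 1))) (bot (x (γ k + 1))) + V s (x (γ k + 1))) := by ring
          _ = _ := by rw [i5]; ring
      · rw [h0, one_mul, one_mul]
        obtain ⟨d1, d2, d3⟩ := hstep s _ _ _ c3 c2 hlt2
        obtain ⟨f1, f2, f3⟩ := hstep s _ _ _ d3 d2 hlt3
        refine ⟨f3, f2, ?_⟩
        rw [b1, a1, f1, d1, c1]
        have hDk' : V s (x (β k + 1)) + Q s (top (x (α k + 1))) (bot (x (β k + 1)))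
            + Q s (top (x (β k + 1))) (bot (x (γ k + 1))) =
            Q s (top (x (α k + 1))) (bot (x (γ k + 1))) + D k := hDk
        calc V s (U k) + Q s (top (x (e k))) (bot (x (α k + 1))) + V s (x (α k + 1)) +
              Q s (top (x (α k + 1))) (bot (x (β k + 1))) + V s (x (β k + 1)) +
              Q s (top (x (β k + 1))) (bot (x (γ k + 1))) + V s (x (γ k + 1)) + B
            = (V s (U k) + B) + (Q s (top (x (e k))) (bot (x (α k + 1))) + V s (x (α k + 1))
              + V s (x (γ k + 1))) + (V s (x (β k + 1))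
              + Q s (top (x (α k + 1))) (bot (x (β k + 1)))
              + Q s (top (x (β k + 1))) (bot (x (γ k + 1)))) := by ring
          _ = _ := by rw [i5, hDk']; ring
  obtain ⟨-, -, j3, j4, j5⟩ := hinv m le_rfl
  have hlast := hstep s _ _ _ j3 j4 (h.lt_add_one_iff.2 heJ)
  obtain ⟨l1, l2, l3⟩ := hlast
  have hVn : V s (U m + x (J + 1)) = F' m := by
    rw [l1]
    have : V s (U m) + B = V s (U₀ m) +
        (V s (U m) + Q s (top (x (e m))) (bot (x (J + 1))) + V s (x (J + 1))) := by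
      show V s (U m) + (V s (U₀ m) + Q s (top (x (e m))) (bot (x (J + 1))) + V s (x (J + 1))) = _
      ring
    rw [this] at j5
    exact add_left_cancel j5
  -- the coefficients
  let χP : M → Prop := fun j => j = 0 ∨ j = J + 1 ∨
    ∃ k < m, j = α k + 1 ∨ j = γ k + 1 ∨ (j = β k + 1 ∧ χ' k = 1)
  have hχP : Dec S χP := by
    refine h.or (h.eq h.fn_id (h.fn_const 0)) (h.or (h.eq h.fn_id (h.fn_const (J + 1))) ?_)
    refine h.bex (h.fn_const m)
      (P := fun k j => j = α k + 1 ∨ j = γ k + 1 ∨ (j = β k + 1 ∧ χ' k = 1)) ?_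
    refine h.or ?_ (h.or ?_ (h.and ?_ ?_))
    · exact h.eq h.fn_p2 (h.fn_add (h.fn_comp hα h.fn_p1) (h.fn_const 1))
    · exact h.eq h.fn_p2 (h.fn_add (h.fn_comp hγ h.fn_p1) (h.fn_const 1))
    · exact h.eq h.fn_p2 (h.fn_add (h.fn_comp hβ h.fn_p1) (h.fn_const 1))
    · exact h.eq (h.fn_comp hχ' h.fn_p1) (h.fn_const 1)
  let χ : M → M := fun j => if χP j then 1 else 0
  have hχ : Fn S χ := h.fn_ite hχP (h.fn_const 1) (h.fn_const 0)
  have hχ01 : ∀ j, χ j = 0 ∨ χ j = 1 := by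
    intro j
    by_cases hj : χP j
    · exact Or.inr (if_pos hj)
    · exact Or.inl (if_neg hj)
  obtain ⟨F, hF, F0, Fs⟩ := h.exists_rec₁ 0 (g := fun n y => y + χ n * x n)
    (h.fn_add h.fn_p2 (h.fn_mul (h.fn_comp hχ h.fn_p1) (h.fn_comp hx h.fn_p1)))
  have hχ1 : ∀ j, χP j → χ j = 1 := fun j hj => if_pos hj
  have hχ0 : ∀ j, ¬ χP j → χ j = 0 := fun j hj => if_neg hj
  -- values of χP inside the `k`-th block
  have hblock : ∀ k < m, ∀ j, e k < j → j ≤ γ k + 1 → χP j →
      j = α k + 1 ∨ j = γ k + 1 ∨ (j = β k + 1 ∧ χ' k = 1) := by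
    intro k hk j hj1 hj2 hj
    rcases hj with rfl | rfl | ⟨k', hk', hj⟩
    · exact absurd hj1 (not_lt.2 zero_le)
    · have h1 : γ k + 1 < J + 1 := by have := hJ k hk; gcongr
      exact absurd hj2 (not_le.2 h1)
    · rcases lt_trichotomy k' k with h1 | h1 | h1
      · have h2 : j ≤ γ k' + 1 := by
          have h3 := hαβγ k' hk'
          rcases hj with rfl | rfl | ⟨rfl, -⟩
          · have := (h3.1.trans h3.2).le; gcongr
          · exact le_rfl
          · have := h3.2.le; gcongr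
        exact absurd hj1 (not_lt.2 (h2.trans (hM1 k hk.le k' h1)))
      · rw [h1] at hj
        exact hj
      · have h2 : α k' + 1 ≤ j := by
          have h3 := hαβγ k' hk'
          rcases hj with rfl | rfl | ⟨rfl, -⟩
          · exact le_rfl
          · have := (h3.1.trans h3.2).le; gcongr
          · have := h3.1.le; gcongr
        have h4 : γ k + 1 < α k' + 1 := by have := hM2 k k' h1 hk'; gcongr
        exact absurd hj2 (not_le.2 (lt_of_lt_of_le h4 h2))
  have hFU : ∀ k ≤ m, F (e k + 1) = U k := by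
    intro k hk
    refine h.ind_le (P := fun k => F (e k + 1) = U k) (n := m)
      (h.eq (h.fn_comp hF (h.fn_add he (h.fn_const 1))) hU) ?_ ?_ hk
    · rw [he0, Fs, F0, hχ1 0 (Or.inl rfl), one_mul, zero_add, U0]
    · intro k hk ih
      have hlt1 : e k < α k + 1 := h.lt_add_one_iff.2 (heα k hk)
      have hlt2 : α k + 1 < β k + 1 := by have := (hαβγ k hk).1; gcongr
      have hlt3 : β k + 1 < γ k + 1 := by have := (hαβγ k hk).2; gcongr
      have z1 : F (α k + 1) = F (e k + 1) := by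
        refine sum_const_of_zero h hF Fs (h.add_one_le_iff.2 hlt1) (fun j hj1 hj2 => hχ0 j ?_)
        intro hj
        rcases hblock k hk j (h.add_one_le_iff.1 hj1) (hj2.le.trans (hlt2.trans hlt3).le) hj with
          h1 | h1 | ⟨h1, -⟩
        · exact hj2.ne h1
        · exact (hj2.trans (hlt2.trans hlt3)).ne h1
        · exact (hj2.trans hlt2).ne h1
      have z2 : F (β k + 1) = F (α k + 1 + 1) := by
        refine sum_const_of_zero h hF Fs (h.add_one_le_iff.2 hlt2) (fun j hj1 hj2 => hχ0 j ?_)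
        intro hj
        have hj1' := h.add_one_le_iff.1 hj1
        rcases hblock k hk j (hlt1.trans hj1') (hj2.le.trans hlt3.le) hj with h1 | h1 | ⟨h1, -⟩
        · exact hj1'.ne' h1
        · exact (hj2.trans hlt3).ne h1
        · exact hj2.ne h1
      have z3 : F (γ k + 1) = F (β k + 1 + 1) := by
        refine sum_const_of_zero h hF Fs (h.add_one_le_iff.2 hlt3) (fun j hj1 hj2 => hχ0 j ?_)
        intro hj
        have hj1' := h.add_one_le_iff.1 hj1
        rcases hblock k hk j (hlt1.trans (hlt2.trans hj1')) hj2.le hj with h1 | h1 | ⟨h1, -⟩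
        · exact (hlt2.trans hj1').ne' h1
        · exact hj2.ne h1
        · exact hj1'.ne' h1
      have w1 : χ (α k + 1) = 1 := hχ1 _ (Or.inr (Or.inr ⟨k, hk, Or.inl rfl⟩))
      have w3 : χ (γ k + 1) = 1 := hχ1 _ (Or.inr (Or.inr ⟨k, hk, Or.inr (Or.inl rfl)⟩))
      have w2 : χ (β k + 1) = χ' k := by
        rcases hχ'01 k with h0 | h0
        · rw [h0]
          refine hχ0 _ (fun hj => ?_)
          rcases hblock k hk _ (hlt1.trans hlt2) hlt3.le hj with h1 | h1 | ⟨-, h1⟩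
          · exact hlt2.ne' h1
          · exact hlt3.ne h1
          · rw [h0] at h1
            exact zero_ne_one h1
        · rw [h0]
          exact hχ1 _ (Or.inr (Or.inr ⟨k, hk, Or.inr (Or.inr ⟨rfl, h0⟩)⟩))
      rw [hes, Fs, z3, Fs, z2, Fs, z1, ih, w1, w2, w3, one_mul, one_mul, Us]
  have hFn : F (J + 1 + 1) = U m + x (J + 1) := by
    have z1 : F (J + 1) = F (e m + 1) := by
      refine sum_const_of_zero h hF Fs (by gcongr) (fun j hj1 hj2 => hχ0 j ?_)
      intro hj
      rcases hj with rfl | rfl | ⟨k', hk', hj⟩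
      · exact absurd (lt_of_lt_of_le (h.lt_add_one_iff.2 (zero_le (a := e m))) hj1) (lt_irrefl _)
      · exact lt_irrefl _ hj2
      · have h2 : j ≤ γ k' + 1 := by
          have h3 := hαβγ k' hk'
          rcases hj with rfl | rfl | ⟨rfl, -⟩
          · have := (h3.1.trans h3.2).le; gcongr
          · exact le_rfl
          · have := h3.2.le; gcongr
        exact absurd (h.add_one_le_iff.1 hj1) (not_lt.2 (h2.trans (hM1 m le_rfl k' hk')))
    rw [Fs, z1, hFU m le_rfl, hχ1 (J + 1) (Or.inr (Or.inl rfl)), one_mul]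
  -- contradiction
  have hne := hthin χ hχ hχ01 F hF F0 Fs (J + 1 + 1)
    ⟨J + 1, h.lt_add_one_iff.2 le_rfl, hχ1 _ (Or.inr (Or.inl rfl))⟩
  apply hne
  rw [hFn, l2, ← hs, hVn, hF'm]
  exact hcolspec i r ε hε

end Pool.Agent.Helper56.TH
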