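import Mathlib

/-!
# Second-order arithmetic: structures, `RCA₀`, `ACA₀` and the thin version of Hindman's theorem

Definitions for MP_6f1bc5_lc.  Everything is semantic: a theory `T` of second-order arithmetic
implies a sentence if and only if the sentence holds in every `L₂`-structure (with an arbitrary
number part and an arbitrary family of sets) that satisfies `T` (completeness theorem).
-/

universe u

namespace Pool.Agent.Helper56.TH

/-- An `L₂`-structure: a number part with `0, 1, +, ·, <`, and a family `sets` of subsets of the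
number part, the range of the set variables. -/
structure L2 where
  /-- the numbers of the structure -/
  N : Type u
  zero : N
  one : N
  add : N → N → N
  mul : N → N → N
  lt : N → N → Prop
  /-- the sets of the structure -/
  sets : Set (Set N)

variable {A : L2.{u}}

/-- Number terms in `n` free number variables, with number parameters. -/
inductive Tm (A : L2.{u}) (n : ℕ) : Type u
  | var (i : Fin n) : Tm A n
  | par (a : A.N) : Tm A n
  | zero : Tm A n
  | one : Tm A n
  | add (s t : Tm A n) : Tm A n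
  | mul (s t : Tm A n) : Tm A n

/-- The value of a term. -/
def Tm.val {n : ℕ} (v : Fin n → A.N) : Tm A n → A.N
  | .var i => v i
  | .par a => a
  | .zero => A.zero
  | .one => A.one
  | .add s t => A.add (s.val v) (t.val v)
  | .mul s t => A.mul (s.val v) (t.val v)

/-- Arithmetical formulas (no set quantifiers) in `n` free number variables, with number
parameters and set parameters.  The formula `ball t φ` is `∀ x < t, φ` and `all φ` is `∀ x, φ`;
in both cases the quantified variable is the variable number `0` of `φ`. -/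
inductive Fm (A : L2.{u}) : ℕ → Type u
  | eq {n : ℕ} (s t : Tm A n) : Fm A n
  | lt {n : ℕ} (s t : Tm A n) : Fm A n
  | mem {n : ℕ} (t : Tm A n) (X : Set A.N) (hX : X ∈ A.sets) : Fm A n
  | not {n : ℕ} (φ : Fm A n) : Fm A n
  | and {n : ℕ} (φ ψ : Fm A n) : Fm A n
  | ball {n : ℕ} (t : Tm A n) (φ : Fm A (n + 1)) : Fm A n
  | all {n : ℕ} (φ : Fm A (n + 1)) : Fm A n

/-- Truth of a formula under an assignment of the free number variables. -/
def Fm.Sat : {n : ℕ} → Fm A n → (Fin n → A.N) → Prop
  | _, .eq s t, v => s.val v = t.val v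
  | _, .lt s t, v => A.lt (s.val v) (t.val v)
  | _, .mem t X _, v => t.val v ∈ X
  | _, .not φ, v => ¬ φ.Sat v
  | _, .and φ ψ, v => φ.Sat v ∧ ψ.Sat v
  | _, .ball t φ, v => ∀ x, A.lt x (t.val v) → φ.Sat (Fin.cons x v)
  | _, .all φ, v => ∀ x, φ.Sat (Fin.cons x v)

/-- `Σ⁰₀` formulas: all quantifiers are bounded. -/
def Fm.Bdd : {n : ℕ} → Fm A n → Prop
  | _, .eq _ _ => True
  | _, .lt _ _ => True
  | _, .mem _ _ _ => True
  | _, .not φ => φ.Bdd
  | _, .and φ ψ => φ.Bdd ∧ ψ.Bdd
  | _, .ball _ φ => φ.Bdd
  | _, .all _ => False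

/-- `P` is defined by the `Σ⁰₁` formula `∃ x, θ(x, n)` with parameters. -/
def IsSigma1 (A : L2.{u}) (P : A.N → Prop) : Prop :=
  ∃ θ : Fm A 2, θ.Bdd ∧ ∀ n, P n ↔ ∃ x, θ.Sat ![x, n]

/-- The basic axioms of second-order arithmetic. -/
structure BasicAxioms (A : L2.{u}) : Prop where
  succ_ne_zero : ∀ n, A.add n A.one ≠ A.zero
  succ_inj : ∀ m n, A.add m A.one = A.add n A.one → m = n
  add_zero : ∀ m, A.add m A.zero = m
  add_succ : ∀ m n, A.add m (A.add n A.one) = A.add (A.add m n) A.one
  mul_zero : ∀ m, A.mul m A.zero = A.zero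
  mul_succ : ∀ m n, A.mul m (A.add n A.one) = A.add (A.mul m n) m
  not_lt_zero : ∀ m, ¬ A.lt m A.zero
  lt_succ : ∀ m n, A.lt m (A.add n A.one) ↔ A.lt m n ∨ m = n

/-- `A` is a model of `RCA₀`: basic axioms, `Σ⁰₁` induction, `Δ⁰₁` comprehension. -/
structure RCA0 (A : L2.{u}) : Prop where
  basic : BasicAxioms A
  sigma1_induction : ∀ P : A.N → Prop, IsSigma1 A P → P A.zero →
    (∀ n, P n → P (A.add n A.one)) → ∀ n, P n
  delta1_comprehension : ∀ P Q : A.N → Prop, IsSigma1 A P → IsSigma1 A Q →
    (∀ n, P n ↔ ¬ Q n) → {n | P n} ∈ A.sets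

/-- `A` is a model of `ACA₀`: basic axioms, the induction axiom, arithmetical comprehension. -/
structure ACA0 (A : L2.{u}) : Prop where
  basic : BasicAxioms A
  induction : ∀ X ∈ A.sets, A.zero ∈ X → (∀ n ∈ X, A.add n A.one ∈ X) → ∀ n, n ∈ X
  comprehension : ∀ φ : Fm A 1, {n | φ.Sat ![n]} ∈ A.sets

/-- The pairing `(m, n) = (m + n)² + m`. -/
def L2.pair (A : L2.{u}) (m n : A.N) : A.N := A.add (A.mul (A.add m n) (A.add m n)) m

/-- The total function `f` is an element of the structure: its graph, coded as a set of pairs,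
is one of the sets of the structure. -/
def L2.IsFun (A : L2.{u}) (f : A.N → A.N) : Prop := {p | ∃ n, p = A.pair n (f n)} ∈ A.sets

/-- `x` is the sum of the elements of the bounded (that is, finite in the sense of the structure)
set `F`: there is a function `g` of the structure with `g(0) = 0`, `g(n+1) = g(n) + n` for
`n ∈ F`, `g(n+1) = g(n)` for `n ∉ F`, and `x = g(b)` for a strict upper bound `b` of `F`. -/
def L2.IsSum (A : L2.{u}) (F : Set A.N) (x : A.N) : Prop :=
  ∃ g : A.N → A.N, A.IsFun g ∧ g A.zero = A.zero ∧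
    (∀ n, n ∈ F → g (A.add n A.one) = A.add (g n) n) ∧
    (∀ n, n ∉ F → g (A.add n A.one) = g n) ∧
    ∃ b, (∀ n ∈ F, A.lt n b) ∧ g b = x

/-- The set `S` is infinite (unbounded) in the structure. -/
def L2.Infinite (A : L2.{u}) (S : Set A.N) : Prop := ∀ b, ∃ x ∈ S, A.lt b x

/-- thin-HT in the structure `A`: for every colouring `c` there are an infinite set `S` and a
colour `i` such that no sum of a nonempty finite subset of `S` has colour `i`. -/
def ThinHT (A : L2.{u}) : Prop :=
  ∀ c : A.N → A.N, A.IsFun c → ∃ S ∈ A.sets, A.Infinite S ∧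
    ∃ i, ∀ F ∈ A.sets, F ⊆ S → F.Nonempty → ∀ x, A.IsSum F x → c x ≠ i

end Pool.Agent.Helper56.TH
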