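import Mathlib

/-!
# A framework for computability inside a model of `RCA₀` (MP_6f1bc5_lc)

`M` is a discretely ordered semiring and `S` a family of subsets of `M`.  Contexts with several
variables are coded by the pairing `pr x y = (x + y)² + x`.

* `Dec S P`: the set `{x | P x}` is in `S`; `Dec₂`, `Dec₃` for relations.
* `Fn S f`: the graph of `f` is in `S`; `Fn₂`, `Fn₃` for functions of several variables.
* `Base S`: closure properties of `S` (consequences of `RCA₀`) from which everything is derived.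
-/

set_option linter.unusedSectionVars false

universe u

namespace Pool.Agent.Helper56.TH

open Classical

variable {M : Type u} [CommSemiring M] [LinearOrder M] [IsStrictOrderedRing M]
  [CanonicallyOrderedAdd M]

/-- pairing -/
def pr (x y : M) : M := (x + y) * (x + y) + x

/-- first projection (`0` if the argument is not a pair) -/
noncomputable def p1 (p : M) : M := if h : ∃ x y, p = pr x y then h.choose else 0

/-- second projection (`0` if the argument is not a pair) -/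
noncomputable def p2 (p : M) : M :=
  if h : ∃ x y, p = pr x y then h.choose_spec.choose else 0

/-- the least element satisfying `P` (`0` if there is none) -/
noncomputable def lst (P : M → Prop) : M :=
  if h : ∃ y, P y ∧ ∀ z < y, ¬ P z then h.choose else 0

def Dec (S : Set (Set M)) (P : M → Prop) : Prop := {x | P x} ∈ S

def Dec₂ (S : Set (Set M)) (P : M → M → Prop) : Prop := Dec S (fun p => P (p1 p) (p2 p))

def Dec₃ (S : Set (Set M)) (P : M → M → M → Prop) : Prop :=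
  Dec S (fun p => P (p1 p) (p1 (p2 p)) (p2 (p2 p)))

def Fn (S : Set (Set M)) (f : M → M) : Prop := Dec S (fun p => f (p1 p) = p2 p)

def Fn₂ (S : Set (Set M)) (f : M → M → M) : Prop := Fn S (fun p => f (p1 p) (p2 p))

def Fn₃ (S : Set (Set M)) (f : M → M → M → M) : Prop :=
  Fn S (fun p => f (p1 p) (p1 (p2 p)) (p2 (p2 p)))

/-- The basic closure properties. -/
structure Base (S : Set (Set M)) : Prop where
  succ_le : ∀ x y : M, x < y → x + 1 ≤ y
  not : ∀ {P : M → Prop}, Dec S P → Dec S (fun x => ¬ P x)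
  and : ∀ {P Q : M → Prop}, Dec S P → Dec S Q → Dec S (fun x => P x ∧ Q x)
  comp : ∀ {P : M → Prop} {f : M → M}, Dec S P → Fn S f → Dec S (fun x => P (f x))
  eq : ∀ {f g : M → M}, Fn S f → Fn S g → Dec S (fun x => f x = g x)
  lt : ∀ {f g : M → M}, Fn S f → Fn S g → Dec S (fun x => f x < g x)
  fn_id : Fn S (fun x => x)
  fn_const : ∀ a : M, Fn S (fun _ => a)
  fn_comp : ∀ {f g : M → M}, Fn S f → Fn S g → Fn S (fun x => f (g x))
  fn_add : ∀ {f g : M → M}, Fn S f → Fn S g → Fn S (fun x => f x + g x)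
  fn_mul : ∀ {f g : M → M}, Fn S f → Fn S g → Fn S (fun x => f x * g x)
  fn_p1 : Fn S p1
  fn_p2 : Fn S p2
  ball : ∀ {t : M → M} {P : M → M → Prop}, Fn S t → Dec₂ S P →
    Dec S (fun x => ∀ y < t x, P y x)
  delta1 : ∀ {P Q : M → M → Prop}, Dec₂ S P → Dec₂ S Q →
    (∀ x, (∃ y, P y x) ↔ ¬ ∃ y, Q y x) → Dec S (fun x => ∃ y, P y x)
  sigma_ind : ∀ {P : M → M → Prop}, Dec₂ S P → (∃ y, P y 0) →
    (∀ x, (∃ y, P y x) → ∃ y, P y (x + 1)) → ∀ x, ∃ y, P y x

namespace Base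

variable {S : Set (Set M)} (h : Base S)
include h

/-! ### order -/

theorem lt_add_one_iff {x y : M} : x < y + 1 ↔ x ≤ y := by
  constructor
  · intro hx
    by_contra hc
    have := h.succ_le y x (not_le.1 hc)
    exact absurd hx (not_lt.2 this)
  · intro hx
    exact lt_of_le_of_lt hx (lt_add_of_pos_right _ one_pos)

theorem add_one_le_iff {x y : M} : x + 1 ≤ y ↔ x < y := by
  constructor
  · intro hx
    exact lt_of_lt_of_le (lt_add_of_pos_right _ one_pos) hx
  · exact h.succ_le x y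

theorem lt_one_iff {x : M} : x < 1 ↔ x = 0 := by
  have := h.lt_add_one_iff (x := x) (y := 0)
  rw [zero_add] at this
  rw [this]
  exact nonpos_iff_eq_zero

theorem pos_iff {x : M} : 0 < x ↔ 1 ≤ x := by
  have := h.add_one_le_iff (x := 0) (y := x)
  rw [zero_add] at this
  exact this.symm

theorem exists_pred {x : M} (hx : 0 < x) : ∃ y, x = y + 1 := by
  have := h.pos_iff.1 hx
  obtain ⟨c, hc⟩ := exists_add_of_le this
  exact ⟨c, by rw [hc, add_comm]⟩

/-! ### pairing -/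

theorem pr_lt {x y x' y' : M} (hlt : x + y < x' + y') : pr x y < pr x' y' := by
  have h1 : x + y + 1 ≤ x' + y' := h.add_one_le_iff.2 hlt
  have h2 : (x + y + 1) * (x + y + 1) ≤ (x' + y') * (x' + y') :=
    mul_le_mul h1 h1 zero_le zero_le
  have h3 : (x + y) * (x + y) + x < (x + y + 1) * (x + y + 1) := by
    have e : (x + y + 1) * (x + y + 1) = ((x + y) * (x + y) + x) + (x + y + y + 1) := by ring
    rw [e]
    exact lt_add_of_pos_right _ (lt_of_lt_of_le one_pos le_add_self)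
  calc pr x y = (x + y) * (x + y) + x := rfl
    _ < (x + y + 1) * (x + y + 1) := h3
    _ ≤ (x' + y') * (x' + y') := h2
    _ ≤ (x' + y') * (x' + y') + x' := le_self_add

theorem pr_inj {x y x' y' : M} (he : pr x y = pr x' y') : x = x' ∧ y = y' := by
  have hs : x + y = x' + y' := by
    rcases lt_trichotomy (x + y) (x' + y') with h1 | h1 | h1
    · exact absurd he (h.pr_lt h1).ne
    · exact h1
    · exact absurd he (h.pr_lt h1).ne'
  have hx : x = x' := by
    have : (x + y) * (x + y) + x = (x' + y') * (x' + y') + x' := he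
    rw [hs] at this
    exact add_left_cancel this
  subst hx
  exact ⟨rfl, add_left_cancel hs⟩

theorem p1_pr (x y : M) : p1 (pr x y) = x := by
  unfold p1
  have hx : ∃ x' y', pr x y = pr x' y' := ⟨x, y, rfl⟩
  rw [dif_pos hx]
  exact (h.pr_inj hx.choose_spec.choose_spec).1.symm

theorem p2_pr (x y : M) : p2 (pr x y) = y := by
  unfold p2
  have hx : ∃ x' y', pr x y = pr x' y' := ⟨x, y, rfl⟩
  rw [dif_pos hx]
  exact (h.pr_inj hx.choose_spec.choose_spec).2.symm

omit h in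
theorem le_pr_left (x y : M) : x ≤ pr x y := le_add_self

omit h in
theorem pr_mono {x y x' y' : M} (hx : x ≤ x') (hy : y ≤ y') : pr x y ≤ pr x' y' := by
  unfold pr
  have := add_le_add hx hy
  exact add_le_add (mul_le_mul this this zero_le zero_le) hx

theorem le_pr_right (x y : M) : y ≤ pr x y := by
  rcases eq_or_ne y 0 with rfl | hy
  · exact zero_le
  · have h1 : 1 ≤ y := h.pos_iff.1 (pos_iff_ne_zero.2 hy)
    calc y = 1 * y := (one_mul y).symm
      _ ≤ (x + y) * (x + y) := mul_le_mul (h1.trans le_add_self) le_add_self zero_le zero_le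
      _ ≤ pr x y := le_self_add

/-! ### logical closure properties -/

theorem congr {P Q : M → Prop} (hP : Dec S P) (hPQ : ∀ x, P x ↔ Q x) : Dec S Q := by
  have : P = Q := funext fun x => propext (hPQ x)
  rwa [← this]

omit h in
theorem fn_congr {f g : M → M} (hf : Fn S f) (hfg : ∀ x, f x = g x) : Fn S g := by
  have : f = g := funext hfg
  rwa [← this]

theorem or {P Q : M → Prop} (hP : Dec S P) (hQ : Dec S Q) : Dec S (fun x => P x ∨ Q x) :=
  h.congr (h.not (h.and (h.not hP) (h.not hQ))) fun x => by tauto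

theorem imp {P Q : M → Prop} (hP : Dec S P) (hQ : Dec S Q) : Dec S (fun x => P x → Q x) :=
  h.congr (h.or (h.not hP) hQ) fun x => by tauto

theorem iff {P Q : M → Prop} (hP : Dec S P) (hQ : Dec S Q) : Dec S (fun x => P x ↔ Q x) :=
  h.congr (h.and (h.imp hP hQ) (h.imp hQ hP)) fun x => by tauto

theorem const (q : Prop) : Dec S (fun _ : M => q) := by
  by_cases hq : q
  · exact h.congr (h.eq h.fn_id h.fn_id) fun x => by simp [hq]
  · exact h.congr (h.not (h.eq h.fn_id h.fn_id)) fun x => by simp [hq]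

theorem le {f g : M → M} (hf : Fn S f) (hg : Fn S g) : Dec S (fun x => f x ≤ g x) :=
  h.congr (h.not (h.lt hg hf)) fun x => by simp

theorem ne {f g : M → M} (hf : Fn S f) (hg : Fn S g) : Dec S (fun x => f x ≠ g x) :=
  h.not (h.eq hf hg)

theorem bex {t : M → M} {P : M → M → Prop} (ht : Fn S t) (hP : Dec₂ S P) :
    Dec S (fun x => ∃ y < t x, P y x) := by
  have h1 : Dec₂ S (fun y x => ¬ P y x) := h.not hP
  exact h.congr (h.not (h.ball ht h1)) fun x => by simp

theorem ball_le {t : M → M} {P : M → M → Prop} (ht : Fn S t) (hP : Dec₂ S P) :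
    Dec S (fun x => ∀ y ≤ t x, P y x) :=
  h.congr (h.ball (h.fn_add ht (h.fn_const 1)) hP) fun x => by simp [h.lt_add_one_iff]

theorem bex_le {t : M → M} {P : M → M → Prop} (ht : Fn S t) (hP : Dec₂ S P) :
    Dec S (fun x => ∃ y ≤ t x, P y x) :=
  h.congr (h.bex (h.fn_add ht (h.fn_const 1)) hP) fun x => by simp [h.lt_add_one_iff]

/-! ### composition -/

theorem fn_pr {f g : M → M} (hf : Fn S f) (hg : Fn S g) : Fn S (fun x => pr (f x) (g x)) :=
  h.fn_add (h.fn_mul (h.fn_add hf hg) (h.fn_add hf hg)) hf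

theorem comp₂ {P : M → M → Prop} (hP : Dec₂ S P) {f g : M → M} (hf : Fn S f) (hg : Fn S g) :
    Dec S (fun x => P (f x) (g x)) :=
  h.congr (h.comp hP (h.fn_pr hf hg)) fun x => by simp only [h.p1_pr, h.p2_pr]

theorem comp₃ {P : M → M → M → Prop} (hP : Dec₃ S P) {f g k : M → M} (hf : Fn S f) (hg : Fn S g)
    (hk : Fn S k) : Dec S (fun x => P (f x) (g x) (k x)) :=
  h.congr (h.comp hP (h.fn_pr hf (h.fn_pr hg hk))) fun x => by simp only [h.p1_pr, h.p2_pr]

theorem fn_comp₂ {F : M → M → M} (hF : Fn₂ S F) {f g : M → M} (hf : Fn S f) (hg : Fn S g) :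
    Fn S (fun x => F (f x) (g x)) :=
  fn_congr (h.fn_comp hF (h.fn_pr hf hg)) fun x => by simp only [h.p1_pr, h.p2_pr]

theorem fn_comp₃ {F : M → M → M → M} (hF : Fn₃ S F) {f g k : M → M} (hf : Fn S f) (hg : Fn S g)
    (hk : Fn S k) : Fn S (fun x => F (f x) (g x) (k x)) :=
  fn_congr (h.fn_comp hF (h.fn_pr hf (h.fn_pr hg hk))) fun x => by simp only [h.p1_pr, h.p2_pr]

theorem fn_p1_comp {f : M → M} (hf : Fn S f) : Fn S (fun x => p1 (f x)) := h.fn_comp h.fn_p1 hf

theorem fn_p2_comp {f : M → M} (hf : Fn S f) : Fn S (fun x => p2 (f x)) := h.fn_comp h.fn_p2 hf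

omit h in
theorem fn_of_graph {f : M → M} {G : M → M → Prop} (hG : Dec₂ S G) (hf : ∀ x y, f x = y ↔ G x y) :
    Fn S f := by
  have : (fun p => f (p1 p) = p2 p) = (fun p => G (p1 p) (p2 p)) :=
    funext fun p => propext (hf _ _)
  unfold Fn
  rw [this]
  exact hG

omit h in
theorem dec₂_graph {f : M → M} (hf : Fn S f) : Dec₂ S (fun x y => f x = y) := hf

theorem fn_ite {P : M → Prop} [DecidablePred P] {f g : M → M} (hP : Dec S P) (hf : Fn S f)
    (hg : Fn S g) :
    Fn S (fun x => if P x then f x else g x) := by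
  refine fn_of_graph (G := fun x y => (P x ∧ f x = y) ∨ (¬ P x ∧ g x = y)) ?_ ?_
  · exact h.or (h.and (h.comp hP h.fn_p1) (h.eq (h.fn_comp hf h.fn_p1) h.fn_p2))
      (h.and (h.not (h.comp hP h.fn_p1)) (h.eq (h.fn_comp hg h.fn_p1) h.fn_p2))
  · intro x y
    by_cases hx : P x <;> simp [hx]

/-! ### swapping and specialising variables -/

theorem dec₂_swap {P : M → M → Prop} (hP : Dec₂ S P) : Dec₂ S (fun x y => P y x) :=
  h.comp₂ hP h.fn_p2 h.fn_p1

theorem dec₂_of_dec {P : M → Prop} (hP : Dec S P) : Dec₂ S (fun x _ => P x) :=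
  h.comp hP h.fn_p1

theorem dec₂_of_dec' {P : M → Prop} (hP : Dec S P) : Dec₂ S (fun _ x => P x) :=
  h.comp hP h.fn_p2

theorem dec_right {P : M → M → Prop} (hP : Dec₂ S P) (a : M) : Dec S (fun x => P a x) :=
  h.comp₂ hP (h.fn_const a) h.fn_id

theorem dec_left {P : M → M → Prop} (hP : Dec₂ S P) (a : M) : Dec S (fun x => P x a) :=
  h.comp₂ hP h.fn_id (h.fn_const a)

theorem fn_right {F : M → M → M} (hF : Fn₂ S F) (a : M) : Fn S (fun x => F a x) :=
  h.fn_comp₂ hF (h.fn_const a) h.fn_id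

theorem fn_left {F : M → M → M} (hF : Fn₂ S F) (a : M) : Fn S (fun x => F x a) :=
  h.fn_comp₂ hF h.fn_id (h.fn_const a)

/-! ### induction and least numbers -/

theorem ind {P : M → Prop} (hP : Dec S P) (h0 : P 0) (hs : ∀ x, P x → P (x + 1)) (x : M) : P x := by
  have := h.sigma_ind (P := fun _ x => P x) (h.dec₂_of_dec' hP) ⟨0, h0⟩
    (fun x ⟨y, hy⟩ => ⟨y, hs x hy⟩) x
  exact this.choose_spec

theorem ind_le {P : M → Prop} (hP : Dec S P) {n : M} (h0 : P 0) (hs : ∀ x < n, P x → P (x + 1))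
    {x : M} (hx : x ≤ n) : P x := by
  have h1 : Dec S (fun x => x ≤ n → P x) := h.imp (h.le h.fn_id (h.fn_const n)) hP
  refine h.ind h1 (fun _ => h0) (fun x ih hx => ?_) x hx
  have hlt : x < n := h.add_one_le_iff.1 hx
  exact hs x hlt (ih hlt.le)

/-- Least number principle for `Σ⁰₁` predicates. -/
theorem sigma_least {P : M → M → Prop} (hP : Dec₂ S P) (hex : ∃ x y, P y x) :
    ∃ x, (∃ y, P y x) ∧ ∀ x' < x, ¬ ∃ y, P y x' := by
  by_contra hc
  push Not at hc
  obtain ⟨a, y₀, ha⟩ := hex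
  have hQ : Dec₂ S (fun y u => ∃ x' ≤ a, x' + u ≤ a ∧ P y x') := by
    refine h.bex_le (h.fn_const a) (P := fun x' p => x' + p2 p ≤ a ∧ P (p1 p) x') ?_
    refine h.and (h.le (h.fn_add h.fn_p1 (h.fn_p2_comp h.fn_p2)) (h.fn_const a)) ?_
    exact h.comp₂ hP (h.fn_p1_comp h.fn_p2) h.fn_p1
  have := h.sigma_ind hQ ⟨y₀, a, le_rfl, by simp, ha⟩ (fun u ⟨y, x', hx', hxu, hy⟩ => ?_) (a + 1)
  · obtain ⟨y, x', hx', hxa, -⟩ := this
    have h1 : a + 1 ≤ a := le_trans le_add_self hxa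
    exact absurd (h.add_one_le_iff.1 h1) (lt_irrefl _)
  · obtain ⟨x'', hx'', y'', hy''⟩ := hc x' ⟨y, hy⟩
    refine ⟨y'', x'', (hx''.le.trans hx'), ?_, hy''⟩
    have h2 : x'' + 1 ≤ x' := h.add_one_le_iff.2 hx''
    calc x'' + (u + 1) = x'' + 1 + u := by ring
      _ ≤ x' + u := add_le_add_left h2 u
      _ ≤ a := hxu

theorem least {P : M → Prop} (hP : Dec S P) (hex : ∃ x, P x) :
    ∃ x, P x ∧ ∀ x' < x, ¬ P x' := by
  obtain ⟨x, ⟨y, hy⟩, hx⟩ := h.sigma_least (P := fun _ x => P x) (h.dec₂_of_dec' hP)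
    ⟨hex.choose, 0, hex.choose_spec⟩
  exact ⟨x, hy, fun x' hx' hx'' => hx x' hx' ⟨0, hx''⟩⟩

/-- Maximum of a nonempty bounded `Σ⁰₁` predicate. -/
theorem sigma_max {P : M → M → Prop} (hP : Dec₂ S P) (hex : ∃ x y, P y x) (a : M)
    (hb : ∀ x y, P y x → x ≤ a) :
    ∃ x, (∃ y, P y x) ∧ ∀ x' y, P y x' → x' ≤ x := by
  by_contra hc
  push Not at hc
  obtain ⟨a₀, y₀, ha⟩ := hex
  have hQ : Dec₂ S (fun y u => ∃ x' ≤ a, u ≤ x' ∧ P y x') := by
    refine h.bex_le (h.fn_const a) (P := fun x' p => p2 p ≤ x' ∧ P (p1 p) x') ?_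
    refine h.and (h.le (h.fn_p2_comp h.fn_p2) h.fn_p1) ?_
    exact h.comp₂ hP (h.fn_p1_comp h.fn_p2) h.fn_p1
  have := h.sigma_ind hQ ⟨y₀, a₀, hb _ _ ha, zero_le, ha⟩
    (fun u ⟨y, x', hx', hxu, hy⟩ => ?_) (a + 1)
  · obtain ⟨y, x', hx', hxa, -⟩ := this
    exact absurd (h.add_one_le_iff.1 (hxa.trans hx')) (lt_irrefl _)
  · obtain ⟨x'', y'', hy'', hx''⟩ := hc x' ⟨y, hy⟩
    exact ⟨y'', x'', hb _ _ hy'', (h.add_one_le_iff.2 (lt_of_le_of_lt hxu hx'')), hy''⟩

theorem strong_ind {P : M → Prop} (hP : Dec S P) (hs : ∀ x, (∀ y < x, P y) → P x) (x : M) :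
    P x := by
  by_contra hc
  obtain ⟨x, hx, hx'⟩ := h.least (h.not hP) ⟨x, hc⟩
  exact hx (hs x fun y hy => not_not.1 (hx' y hy))

/-! ### least number operator -/

omit [CanonicallyOrderedAdd M] [IsStrictOrderedRing M] h in
theorem lst_eq {P : M → Prop} {y : M} (hy : P y) (hm : ∀ z < y, ¬ P z) : lst P = y := by
  unfold lst
  have hex : ∃ y, P y ∧ ∀ z < y, ¬ P z := ⟨y, hy, hm⟩
  rw [dif_pos hex]
  obtain ⟨h1, h2⟩ := hex.choose_spec
  rcases lt_trichotomy hex.choose y with h3 | h3 | h3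
  · exact absurd h1 (hm _ h3)
  · exact h3
  · exact absurd hy (h2 _ h3)

theorem lst_spec {P : M → Prop} (hP : Dec S P) (hex : ∃ x, P x) :
    P (lst P) ∧ ∀ z < lst P, ¬ P z := by
  obtain ⟨y, hy, hm⟩ := h.least hP hex
  rw [lst_eq hy hm]
  exact ⟨hy, hm⟩

omit [CanonicallyOrderedAdd M] [IsStrictOrderedRing M] h in
theorem lst_eq_zero {P : M → Prop} (hn : ∀ x, ¬ P x) : lst P = 0 := by
  unfold lst
  rw [dif_neg]
  rintro ⟨y, hy, -⟩
  exact hn y hy

theorem fn_lst {P : M → M → Prop} (hP : Dec₂ S P) (hex : ∀ x, ∃ y, P y x) :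
    Fn S (fun x => lst (fun y => P y x)) := by
  refine fn_of_graph (G := fun x y => P y x ∧ ∀ z < y, ¬ P z x) ?_ ?_
  · refine h.and (h.comp₂ hP h.fn_p2 h.fn_p1) ?_
    refine h.ball h.fn_p2 (P := fun z p => ¬ P z (p1 p)) ?_
    exact h.not (h.comp₂ hP h.fn_p1 (h.fn_p1_comp h.fn_p2))
  · intro x y
    constructor
    · rintro rfl
      exact h.lst_spec (h.dec_left hP x) (hex x)
    · rintro ⟨h1, h2⟩
      exact lst_eq h1 h2

/-- Bounded search: the least `y ≤ t x` with `P y x`, and `0` if there is none. -/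
theorem fn_lst_le {t : M → M} {P : M → M → Prop} (ht : Fn S t) (hP : Dec₂ S P) :
    Fn S (fun x => lst (fun y => y ≤ t x ∧ P y x)) := by
  have hR : Dec₂ S (fun y x => y ≤ t x ∧ P y x) :=
    h.and (h.le h.fn_p1 (h.fn_comp ht h.fn_p2)) hP
  have hE : Dec S (fun x => ∃ y ≤ t x, P y x) := h.bex_le ht hP
  have hR' : Dec₂ S (fun y x => (y ≤ t x ∧ P y x) ∨ (¬ (∃ y ≤ t x, P y x) ∧ y = 0)) :=
    h.or hR (h.and (h.not (h.comp hE h.fn_p2)) (h.eq h.fn_p1 (h.fn_const 0)))
  have hT : ∀ x, ∃ y, (y ≤ t x ∧ P y x) ∨ (¬ (∃ y ≤ t x, P y x) ∧ y = 0) := by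
    intro x
    by_cases hx : ∃ y ≤ t x, P y x
    · obtain ⟨y, hy⟩ := hx
      exact ⟨y, Or.inl hy⟩
    · exact ⟨0, Or.inr ⟨hx, rfl⟩⟩
  refine fn_congr (h.fn_lst hR' hT) fun x => ?_
  by_cases hx : ∃ y ≤ t x, P y x
  · obtain ⟨h1, h2⟩ := h.lst_spec (h.dec_left hR x) hx
    refine lst_eq (Or.inl h1) (fun z hz => ?_)
    rintro (h3 | h3)
    · exact h2 z hz h3
    · exact h3.1 hx
  · rw [lst_eq_zero (P := fun y => y ≤ t x ∧ P y x) (fun y hy => hx ⟨y, hy⟩)]
    exact lst_eq (Or.inr ⟨hx, rfl⟩) (fun z hz => absurd hz (not_lt.2 zero_le))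

theorem lst_le_spec {P : M → M → Prop} (hP : Dec₂ S P) {t : M} {x : M} (hx : ∃ y ≤ t, P y x) :
    lst (fun y => y ≤ t ∧ P y x) ≤ t ∧ P (lst (fun y => y ≤ t ∧ P y x)) x ∧
      ∀ z < lst (fun y => y ≤ t ∧ P y x), ¬ P z x := by
  have hR : Dec S (fun y => y ≤ t ∧ P y x) :=
    h.and (h.le h.fn_id (h.fn_const t)) (h.dec_left hP x)
  obtain ⟨⟨h1, h2⟩, h3⟩ := h.lst_spec hR hx
  exact ⟨h1, h2, fun z hz hz' => h3 z hz ⟨hz.le.trans h1, hz'⟩⟩

end Base

end Pool.Agent.Helper56.TH
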