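import Pool.Agent.Helper56.TH.Frame
import Pool.Agent.Helper56.TH.Defs

/-!
# Interface definitions for the blocks of the proof (MP_6f1bc5_lc)
-/

set_option linter.unusedSectionVars false

universe u

namespace Pool.Agent.Helper56.TH

open Classical

variable {M : Type u} [CommSemiring M] [LinearOrder M] [IsStrictOrderedRing M]
  [CanonicallyOrderedAdd M]

/-- `p` is the function `n ↦ 2 ^ n` of the model. -/
structure IsPow (S : Set (Set M)) (p : M → M) : Prop where
  fn : Fn S p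
  zero : p 0 = 1
  succ : ∀ n, p (n + 1) = 2 * p n

/-- `x` is the sum of the elements of the bounded set `F` (frame version of `L2.IsSum`). -/
def IsSumF (S : Set (Set M)) (F : Set M) (x : M) : Prop :=
  ∃ g : M → M, Fn S g ∧ g 0 = 0 ∧ (∀ n, n ∈ F → g (n + 1) = g n + n) ∧
    (∀ n, n ∉ F → g (n + 1) = g n) ∧ ∃ b, (∀ n ∈ F, n < b) ∧ g b = x

/-- thin-HT (frame version). -/
def ThinF (S : Set (Set M)) : Prop :=
  ∀ c : M → M, Fn S c → ∃ X ∈ S, (∀ b, ∃ x ∈ X, b < x) ∧
    ∃ i, ∀ F ∈ S, F ⊆ X → F.Nonempty → ∀ x, IsSumF S F x → c x ≠ i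

/-- The combinatorial consequence of thin-HT from which everything else follows.  `lo j`, `hi j`
are the least and the largest binary exponent of the `j`-th element of a thin set, `W s j` is the
sum of the weights `Q s e e'` of its pairs `e < e'` of consecutive exponents. For
`D s (i,j,l) = W s j + Q s (hi i) (lo j) + Q s (hi j) (lo l) - Q s (hi i) (lo l)` there are no `m`
disjoint triples `i < j < l` all of which have `D s (i,j,l)` not divisible by `2 ^ t`
(for `s = hi J`, `J` beyond all triples). -/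
def Export (S : Set (Set M)) : Prop :=
  ∀ (p : M → M), IsPow S p → ∀ (t : M) (Q : M → M → M → M), Fn₃ S Q →
    (∀ s u v v', v ≤ v' → Q s u v' ≤ Q s u v) →
    ∃ (lo hi : M → M) (W : M → M → M) (m : M), Fn S lo ∧ Fn S hi ∧ Fn₂ S W ∧
      (∀ j, lo j ≤ hi j) ∧ (∀ j, hi j < lo (j + 1)) ∧
      (∀ s s' j, (∀ u v, u < v → v ≤ hi j → Q s u v = Q s' u v) → W s j = W s' j) ∧
      ∀ a b c : M → M, Fn S a → Fn S b → Fn S c → (∀ k < m, a k < b k ∧ b k < c k) →
        (∀ k, k + 1 < m → c k < a (k + 1)) → ∀ J, (∀ k < m, c k < J) →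
        ∃ k < m, ∃ d, W (hi J) (b k) + Q (hi J) (hi (a k)) (lo (b k))
          + Q (hi J) (hi (b k)) (lo (c k)) = Q (hi J) (hi (a k)) (lo (c k)) + p t * d

/-- Every bounded function of the model has a limit inferior. -/
def LP (S : Set (Set M)) : Prop :=
  ∀ X : M → M, Fn S X → ∀ a, (∀ r, X r ≤ a) →
    ∃ g, (∃ b, ∀ r, b ≤ r → g ≤ X r) ∧ ∀ b, ∃ r, b ≤ r ∧ X r = g

/-- `Σ⁰₁` comprehension. -/
def SigmaCA (S : Set (Set M)) : Prop :=
  ∀ P : M → M → Prop, Dec₂ S P → Dec S (fun x => ∃ y, P y x)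

end Pool.Agent.Helper56.TH
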