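import Pool.Agent.Helper56.TH.Iface

/-!
# Primitive recursion inside a model of `RCA₀` (MP_6f1bc5_lc)

Finite sets are coded by pairs `(b, w)`: the element `k` is in the set iff `1 + (k+1) b ∣ w`.
-/

set_option linter.unusedSectionVars false

universe u

namespace Pool.Agent.Helper56.TH

open Classical

variable {M : Type u} [CommSemiring M] [LinearOrder M] [IsStrictOrderedRing M]
  [CanonicallyOrderedAdd M] {S : Set (Set M)}

theorem dvd_of_dvd_add {m a c : M} (h1 : m ∣ a) (h2 : m ∣ a + c) : m ∣ c := by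
  obtain ⟨r, rfl⟩ := h1
  obtain ⟨q, hq⟩ := h2
  rcases le_total r q with hrq | hrq
  · obtain ⟨k, rfl⟩ := exists_add_of_le hrq
    refine ⟨k, ?_⟩
    rw [mul_add] at hq
    exact add_left_cancel hq
  · obtain ⟨k, rfl⟩ := exists_add_of_le hrq
    rw [mul_add, add_assoc] at hq
    have : m * k + c = 0 := by
      have h3 : m * q + (m * k + c) = m * q + 0 := by rw [hq, add_zero]
      exact add_left_cancel h3
    have hc : c = 0 := by
      have h4 : c ≤ m * k + c := le_add_self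
      rw [this] at h4
      exact le_antisymm h4 zero_le
    rw [hc]
    exact dvd_zero m

theorem dvd_of_dvd_sq {P w : M} (h1 : (P + 1) ∣ w * P * P) : (P + 1) ∣ w := by
  have e : w * P * P + w * (P + 1) = w * P * (P + 1) + w := by ring
  have h2 : (P + 1) ∣ w * P * (P + 1) + w := by
    rw [← e]
    exact dvd_add h1 (dvd_mul_left _ _)
  exact dvd_of_dvd_add (dvd_mul_left _ _) h2

/-- `k` belongs to the finite set coded by `(b, w)` -/
def mm (b w k : M) : Prop := (1 + (k + 1) * b) ∣ w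

/-- all numbers `1, …, N` divide `b > 0` -/
def Gd (b N : M) : Prop := 0 < b ∧ ∀ d ≤ N, 0 < d → d ∣ b

theorem gauss_aux {i b d c w : M} (hb : b = d * c) (h1 : (1 + (i + 1) * b) ∣ w * (d * b)) :
    (1 + (i + 1) * b) ∣ w := by
  have h2 : ((i + 1) * b + 1) ∣ w * ((i + 1) * b) * ((i + 1) * b) := by
    have e : w * ((i + 1) * b) * ((i + 1) * b) = w * (d * b) * (c * (i + 1) * (i + 1)) := by
      calc w * ((i + 1) * b) * ((i + 1) * b) = w * (b * b) * ((i + 1) * (i + 1)) := by ring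
        _ = w * ((d * c) * b) * ((i + 1) * (i + 1)) := by rw [← hb]
        _ = w * (d * b) * (c * (i + 1) * (i + 1)) := by ring
    rw [e, add_comm _ (1 : M)]
    exact Dvd.dvd.mul_right h1 _
  rw [add_comm]
  exact dvd_of_dvd_sq h2

theorem gauss {i j b N w : M} (hb : Gd b N) (hi : i ≤ N) (hj : j ≤ N) (hij : i ≠ j)
    (h1 : (1 + (i + 1) * b) ∣ w * (1 + (j + 1) * b)) : (1 + (i + 1) * b) ∣ w := by
  rcases lt_or_gt_of_ne hij with hlt | hlt
  · obtain ⟨d, rfl⟩ := exists_add_of_le hlt.le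
    have hd : 0 < d := by
      rcases eq_or_ne d 0 with rfl | hd
      · simp at hij
      · exact pos_iff_ne_zero.2 hd
    obtain ⟨c, hc⟩ := hb.2 d (le_trans le_add_self hj) hd
    have e : w * (1 + (i + d + 1) * b) = w * (1 + (i + 1) * b) + w * (d * b) := by ring
    rw [e] at h1
    exact gauss_aux hc (dvd_of_dvd_add (dvd_mul_left _ _) h1)
  · obtain ⟨d, rfl⟩ := exists_add_of_le hlt.le
    have hd : 0 < d := by
      rcases eq_or_ne d 0 with rfl | hd
      · simp at hij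
      · exact pos_iff_ne_zero.2 hd
    obtain ⟨c, hc⟩ := hb.2 d (le_trans le_add_self hi) hd
    have e : w * (1 + (j + 1) * b) + w * (d * b) = w * (1 + (j + d + 1) * b) := by ring
    have h2 : (1 + (j + d + 1) * b) ∣ w * (1 + (j + 1) * b) + w * (d * b) := by
      rw [e]; exact dvd_mul_left _ _
    exact gauss_aux hc (dvd_of_dvd_add h1 h2)

theorem mm_mul {i j b N w : M} (hb : Gd b N) (hi : i ≤ N) (hj : j ≤ N) :
    mm b (w * (1 + (j + 1) * b)) i ↔ mm b w i ∨ i = j := by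
  unfold mm
  constructor
  · intro h1
    by_cases hij : i = j
    · exact Or.inr hij
    · exact Or.inl (gauss hb hi hj hij h1)
  · rintro (h1 | rfl)
    · exact Dvd.dvd.mul_right h1 _
    · exact dvd_mul_left _ _

namespace Base

variable (h : Base S)
include h

theorem dvd_iff {a b : M} : a ∣ b ↔ ∃ q ≤ b, b = a * q := by
  constructor
  · rintro ⟨q, hq⟩
    by_cases h1 : q ≤ b
    · exact ⟨q, h1, hq⟩
    · push Not at h1
      rcases eq_or_ne a 0 with rfl | ha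
      · refine ⟨0, zero_le, ?_⟩
        rw [hq]; simp
      · have ha' : 1 ≤ a := h.pos_iff.1 (pos_iff_ne_zero.2 ha)
        have : q ≤ b := by
          calc q = 1 * q := (one_mul q).symm
            _ ≤ a * q := mul_le_mul_left ha' q
            _ = b := hq.symm
        exact absurd this (not_le.2 h1)
  · rintro ⟨q, -, hq⟩
    exact ⟨q, hq⟩

theorem dvd {f g : M → M} (hf : Fn S f) (hg : Fn S g) : Dec S (fun x => f x ∣ g x) := by
  refine h.congr (P := fun x => ∃ q ≤ g x, g x = f x * q) ?_ (fun x => h.dvd_iff.symm)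
  refine h.bex_le hg (P := fun q x => g x = f x * q) ?_
  exact h.eq (h.fn_comp hg h.fn_p2) (h.fn_mul (h.fn_comp hf h.fn_p2) h.fn_p1)

theorem dec_mm {f g k : M → M} (hf : Fn S f) (hg : Fn S g) (hk : Fn S k) :
    Dec S (fun x => mm (f x) (g x) (k x)) :=
  h.dvd (h.fn_add (h.fn_const 1) (h.fn_mul (h.fn_add hk (h.fn_const 1)) hf)) hg

theorem exists_good (N : M) : ∃ b, Gd b N := by
  refine h.sigma_ind (P := fun b N => Gd b N) ?_ ⟨1, one_pos, ?_⟩ ?_ N
  · refine h.and (h.lt (h.fn_const 0) h.fn_p1) ?_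
    refine h.ball_le h.fn_p2 (P := fun d p => 0 < d → d ∣ p1 p) ?_
    exact h.imp (h.lt (h.fn_const 0) h.fn_p1) (h.dvd h.fn_p1 (h.fn_p1_comp h.fn_p2))
  · intro d hd hd'
    exact absurd hd (not_le.2 hd')
  · rintro x ⟨b, hb, hd⟩
    refine ⟨b * (x + 1), mul_pos hb (lt_of_lt_of_le one_pos le_add_self), fun d hdx hd0 => ?_⟩
    rcases eq_or_ne d (x + 1) with rfl | hne
    · exact dvd_mul_left _ _
    · have : d ≤ x := h.lt_add_one_iff.1 (lt_of_le_of_ne hdx hne)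
      exact Dvd.dvd.mul_right (hd d this hd0) _

theorem not_mm_one {b k : M} (hb : 0 < b) : ¬ mm b 1 k := by
  rintro ⟨q, hq⟩
  have h0 : q ≠ 0 := by
    rintro rfl
    simp at hq
  have hq1 : 1 ≤ q := h.pos_iff.1 (pos_iff_ne_zero.2 h0)
  have h1 : 1 + (k + 1) * b ≤ 1 := by
    calc 1 + (k + 1) * b = (1 + (k + 1) * b) * 1 := (mul_one _).symm
      _ ≤ (1 + (k + 1) * b) * q := mul_le_mul_right hq1 _
      _ = 1 := hq.symm
  have h2 : 0 < (k + 1) * b := mul_pos (lt_of_lt_of_le one_pos le_add_self) hb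
  exact absurd h1 (not_le.2 (lt_add_of_pos_right _ h2))

/-- comprehension for coded finite sets -/
theorem fin_comp {b N : M} (hb : Gd b N) {P : M → Prop} (hP : Dec S P) :
    ∃ w, ∀ k ≤ N, (mm b w k ↔ P k) := by
  have key : ∀ x, ∃ w, ∀ k ≤ N, (mm b w k ↔ (k < x ∧ P k)) := by
    refine h.sigma_ind (P := fun w x => ∀ k ≤ N, (mm b w k ↔ (k < x ∧ P k))) ?_ ⟨1, ?_⟩ ?_
    · refine h.ball_le (h.fn_const N) (P := fun k p => (mm b (p1 p) k ↔ (k < p2 p ∧ P k))) ?_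
      exact h.iff (h.dec_mm (h.fn_const b) (h.fn_p1_comp h.fn_p2) h.fn_p1)
        (h.and (h.lt h.fn_p1 (h.fn_p2_comp h.fn_p2)) (h.comp hP h.fn_p1))
    · intro k hk
      constructor
      · intro h1
        exact absurd h1 (h.not_mm_one hb.1)
      · rintro ⟨h1, -⟩
        exact absurd h1 (not_lt.2 zero_le)
    · rintro x ⟨w, hw⟩
      by_cases hx : x ≤ N ∧ P x
      · refine ⟨w * (1 + (x + 1) * b), fun k hk => ?_⟩
        rw [mm_mul hb hk hx.1, hw k hk, h.lt_add_one_iff]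
        constructor
        · rintro (⟨h1, h2⟩ | rfl)
          · exact ⟨h1.le, h2⟩
          · exact ⟨le_rfl, hx.2⟩
        · rintro ⟨h1, h2⟩
          rcases h1.lt_or_eq with h3 | h3
          · exact Or.inl ⟨h3, h2⟩
          · exact Or.inr h3
      · refine ⟨w, fun k hk => ?_⟩
        rw [hw k hk, h.lt_add_one_iff]
        constructor
        · rintro ⟨h1, h2⟩
          exact ⟨h1.le, h2⟩
        · rintro ⟨h1, h2⟩
          refine ⟨lt_of_le_of_ne h1 ?_, h2⟩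
          rintro rfl
          exact hx ⟨hk, h2⟩
  obtain ⟨w, hw⟩ := key (N + 1)
  refine ⟨w, fun k hk => ?_⟩
  rw [hw k hk, h.lt_add_one_iff]
  exact ⟨fun h1 => h1.2, fun h1 => ⟨hk, h1⟩⟩

end Base

/-- The code `(b, w, N)` describes the computation of the recursion `(a, g)` with parameter `e` up
to `n`, with final value `y`. -/
def Run (a : M → M) (g : M → M → M → M) (n e y b w N : M) : Prop :=
  (pr 0 (a e) ≤ N ∧ mm b w (pr 0 (a e))) ∧
  (∀ k < n, ∀ v ≤ N, pr k v ≤ N → mm b w (pr k v) →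
    pr (k + 1) (g k v e) ≤ N ∧ mm b w (pr (k + 1) (g k v e))) ∧
  (∀ k ≤ n, ∀ v ≤ N, ∀ v' ≤ N, pr k v ≤ N → mm b w (pr k v) → pr k v' ≤ N → mm b w (pr k v') →
    v = v') ∧
  (pr n y ≤ N ∧ mm b w (pr n y))

namespace Base

variable (h : Base S)
include h

theorem dec_run {a : M → M} (ha : Fn S a) {g : M → M → M → M} (hg : Fn₃ S g)
    {n e y b w N : M → M} (hn : Fn S n) (he : Fn S e) (hy : Fn S y) (hb : Fn S b) (hw : Fn S w)
    (hN : Fn S N) : Dec S (fun x => Run a g (n x) (e x) (y x) (b x) (w x) (N x)) := by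
  unfold Run
  have q1 : ∀ {f : M → M}, Fn S f → Fn S (fun x => f (p2 x)) := fun hf => h.fn_comp hf h.fn_p2
  have q2 : ∀ {f : M → M}, Fn S f → Fn S (fun x => f (p2 (p2 x))) :=
    fun hf => h.fn_comp hf (h.fn_p2_comp h.fn_p2)
  have q3 : ∀ {f : M → M}, Fn S f → Fn S (fun x => f (p2 (p2 (p2 x)))) :=
    fun hf => h.fn_comp hf (h.fn_p2_comp (h.fn_p2_comp h.fn_p2))
  have r1 : Fn S (fun x : M => p1 (p2 x)) := h.fn_p1_comp h.fn_p2
  have r2 : Fn S (fun x : M => p1 (p2 (p2 x))) := h.fn_p1_comp (h.fn_p2_comp h.fn_p2)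
  refine h.and (h.and ?_ ?_) (h.and ?_ (h.and ?_ (h.and ?_ ?_)))
  · exact h.le (h.fn_pr (h.fn_const 0) (h.fn_comp ha he)) hN
  · exact h.dec_mm hb hw (h.fn_pr (h.fn_const 0) (h.fn_comp ha he))
  · refine h.ball hn (P := fun k x => ∀ v ≤ N x, pr k v ≤ N x → mm (b x) (w x) (pr k v) →
      pr (k + 1) (g k v (e x)) ≤ N x ∧ mm (b x) (w x) (pr (k + 1) (g k v (e x)))) ?_
    refine h.ball_le (q1 hN) (P := fun v p => pr (p1 p) v ≤ N (p2 p) →
      mm (b (p2 p)) (w (p2 p)) (pr (p1 p) v) →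
      pr (p1 p + 1) (g (p1 p) v (e (p2 p))) ≤ N (p2 p) ∧
        mm (b (p2 p)) (w (p2 p)) (pr (p1 p + 1) (g (p1 p) v (e (p2 p))))) ?_
    have t1 : Fn S (fun q => pr (p1 (p2 q)) (p1 q)) := h.fn_pr r1 h.fn_p1
    have t2 : Fn S (fun q => pr (p1 (p2 q) + 1) (g (p1 (p2 q)) (p1 q) (e (p2 (p2 q))))) :=
      h.fn_pr (h.fn_add r1 (h.fn_const 1)) (h.fn_comp₃ hg r1 h.fn_p1 (q2 he))
    exact h.imp (h.le t1 (q2 hN)) (h.imp (h.dec_mm (q2 hb) (q2 hw) t1)
      (h.and (h.le t2 (q2 hN)) (h.dec_mm (q2 hb) (q2 hw) t2)))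
  · refine h.ball_le hn (P := fun k x => ∀ v ≤ N x, ∀ v' ≤ N x, pr k v ≤ N x →
      mm (b x) (w x) (pr k v) → pr k v' ≤ N x → mm (b x) (w x) (pr k v') → v = v') ?_
    refine h.ball_le (q1 hN) (P := fun v p => ∀ v' ≤ N (p2 p), pr (p1 p) v ≤ N (p2 p) →
      mm (b (p2 p)) (w (p2 p)) (pr (p1 p) v) → pr (p1 p) v' ≤ N (p2 p) →
      mm (b (p2 p)) (w (p2 p)) (pr (p1 p) v') → v = v') ?_
    refine h.ball_le (q2 hN) (P := fun v' q => pr (p1 (p2 q)) (p1 q) ≤ N (p2 (p2 q)) →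
      mm (b (p2 (p2 q))) (w (p2 (p2 q))) (pr (p1 (p2 q)) (p1 q)) →
      pr (p1 (p2 q)) v' ≤ N (p2 (p2 q)) →
      mm (b (p2 (p2 q))) (w (p2 (p2 q))) (pr (p1 (p2 q)) v') → p1 q = v') ?_
    have t1 : Fn S (fun q => pr (p1 (p2 (p2 q))) (p1 (p2 q))) := h.fn_pr r2 r1
    have t2 : Fn S (fun q => pr (p1 (p2 (p2 q))) (p1 q)) := h.fn_pr r2 h.fn_p1
    exact h.imp (h.le t1 (q3 hN)) (h.imp (h.dec_mm (q3 hb) (q3 hw) t1)
      (h.imp (h.le t2 (q3 hN)) (h.imp (h.dec_mm (q3 hb) (q3 hw) t2) (h.eq r1 h.fn_p1))))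
  · exact h.le (h.fn_pr hn hy) hN
  · exact h.dec_mm hb hw (h.fn_pr hn hy)

theorem run_unique {a : M → M} (ha : Fn S a) {g : M → M → M → M} (hg : Fn₃ S g)
    {n e y b w N y' b' w' N' : M} (h1 : Run a g n e y b w N) (h2 : Run a g n e y' b' w' N') :
    y = y' := by
  obtain ⟨⟨a1, a2⟩, a3, a4, a5, a6⟩ := h1
  obtain ⟨⟨b1, b2⟩, b3, b4, b5, b6⟩ := h2
  have key : ∀ k, k ≤ n → ∃ v ≤ N, v ≤ N' ∧ (pr k v ≤ N ∧ mm b w (pr k v)) ∧
      (pr k v ≤ N' ∧ mm b' w' (pr k v)) := by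
    intro k hk
    refine h.ind_le (P := fun k => ∃ v ≤ N, v ≤ N' ∧ (pr k v ≤ N ∧ mm b w (pr k v)) ∧
      (pr k v ≤ N' ∧ mm b' w' (pr k v))) (n := n) ?_ ?_ ?_ hk
    · refine h.bex_le (h.fn_const N) (P := fun v k => v ≤ N' ∧ (pr k v ≤ N ∧ mm b w (pr k v)) ∧
        (pr k v ≤ N' ∧ mm b' w' (pr k v))) ?_
      have t : Fn S (fun q : M => pr (p2 q) (p1 q)) := h.fn_pr h.fn_p2 h.fn_p1
      exact h.and (h.le h.fn_p1 (h.fn_const N')) (h.and (h.and (h.le t (h.fn_const N))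
        (h.dec_mm (h.fn_const b) (h.fn_const w) t)) (h.and (h.le t (h.fn_const N'))
        (h.dec_mm (h.fn_const b') (h.fn_const w') t)))
    · exact ⟨a e, (h.le_pr_right _ _).trans a1, (h.le_pr_right _ _).trans b1, ⟨a1, a2⟩, ⟨b1, b2⟩⟩
    · rintro k hk ⟨v, hv, hv', ⟨c1, c2⟩, c3, c4⟩
      have d1 := a3 k hk v hv c1 c2
      have d2 := b3 k hk v hv' c3 c4
      exact ⟨g k v e, (h.le_pr_right _ _).trans d1.1, (h.le_pr_right _ _).trans d2.1, d1, d2⟩
  obtain ⟨v, hv, hv', ⟨c1, c2⟩, c3, c4⟩ := key n le_rfl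
  have e1 : v = y := a4 n le_rfl v hv y ((h.le_pr_right _ _).trans a5) c1 c2 a5 a6
  have e2 : v = y' := b4 n le_rfl v hv' y' ((h.le_pr_right _ _).trans b5) c3 c4 b5 b6
  exact e1.symm.trans e2

theorem run_exists {a : M → M} (ha : Fn S a) {g : M → M → M → M} (hg : Fn₃ S g) (e n : M) :
    ∃ y b w N, Run a g n e y b w N := by
  have key : ∀ n, ∃ c, Run a g n e (p1 c) (p1 (p2 c)) (p1 (p2 (p2 c))) (p2 (p2 (p2 c))) := by
    refine h.sigma_ind
      (P := fun c n => Run a g n e (p1 c) (p1 (p2 c)) (p1 (p2 (p2 c))) (p2 (p2 (p2 c)))) ?_ ?_ ?_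
    · exact h.dec_run ha hg h.fn_p2 (h.fn_const e) (h.fn_p1_comp h.fn_p1)
        (h.fn_p1_comp (h.fn_p2_comp h.fn_p1)) (h.fn_p1_comp (h.fn_p2_comp (h.fn_p2_comp h.fn_p1)))
        (h.fn_p2_comp (h.fn_p2_comp (h.fn_p2_comp h.fn_p1)))
    · obtain ⟨b, hb⟩ := h.exists_good (pr 0 (a e))
      obtain ⟨w, hw⟩ := h.fin_comp hb (P := fun k => k = pr 0 (a e))
        (h.eq h.fn_id (h.fn_const _))
      refine ⟨pr (a e) (pr b (pr w (pr 0 (a e)))), ?_⟩
      simp only [h.p1_pr, h.p2_pr]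
      refine ⟨⟨le_rfl, (hw _ le_rfl).2 rfl⟩, ?_, ?_, ⟨le_rfl, (hw _ le_rfl).2 rfl⟩⟩
      · intro k hk
        exact absurd hk (not_lt.2 zero_le)
      · intro k hk v hv v' hv' c1 c2 c3 c4
        have e1 := (h.pr_inj ((hw _ c1).1 c2)).2
        have e2 := (h.pr_inj ((hw _ c3).1 c4)).2
        rw [e1, e2]
    · rintro n ⟨c, hc⟩
      set y := p1 c
      set b := p1 (p2 c)
      set w := p1 (p2 (p2 c))
      set N := p2 (p2 (p2 c))
      obtain ⟨⟨a1, a2⟩, a3, a4, a5, a6⟩ := hc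
      set z := pr (n + 1) (g n y e) with hz
      obtain ⟨b', hb'⟩ := h.exists_good (N + z)
      have hD : Dec S (fun q => (q ≤ N ∧ mm b w q ∧ p1 q ≤ n ∧ q = pr (p1 q) (p2 q)) ∨ q = z) := by
        refine h.or (h.and (h.le h.fn_id (h.fn_const N)) (h.and
          (h.dec_mm (h.fn_const b) (h.fn_const w) h.fn_id) (h.and (h.le h.fn_p1 (h.fn_const n))
          (h.eq h.fn_id (h.fn_pr h.fn_p1 h.fn_p2))))) (h.eq h.fn_id (h.fn_const z))
      obtain ⟨w', hw'⟩ := h.fin_comp hb' hD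
      have key2 : ∀ k ≤ n, ∀ v, pr k v ≤ N + z → (mm b' w' (pr k v) ↔
          pr k v ≤ N ∧ mm b w (pr k v)) := by
        intro k hk v hv
        rw [hw' _ hv, h.p1_pr, h.p2_pr]
        constructor
        · rintro (⟨c1, c2, -, -⟩ | c1)
          · exact ⟨c1, c2⟩
          · have := (h.pr_inj c1).1
            rw [this] at hk
            exact absurd (h.add_one_le_iff.1 hk) (lt_irrefl _)
        · rintro ⟨c1, c2⟩
          exact Or.inl ⟨c1, c2, hk, rfl⟩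
      have key3 : ∀ v, pr (n + 1) v ≤ N + z → (mm b' w' (pr (n + 1) v) ↔ v = g n y e) := by
        intro v hv
        rw [hw' _ hv, h.p1_pr, h.p2_pr]
        constructor
        · rintro (⟨-, -, c1, -⟩ | c1)
          · exact absurd (h.add_one_le_iff.1 c1) (lt_irrefl _)
          · exact (h.pr_inj c1).2
        · rintro rfl
          exact Or.inr rfl
      refine ⟨pr (g n y e) (pr b' (pr w' (N + z))), ?_⟩
      simp only [h.p1_pr, h.p2_pr]
      have hzN : z ≤ N + z := le_add_self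
      refine ⟨⟨a1.trans le_self_add, (key2 0 zero_le _ (a1.trans le_self_add)).2 ⟨a1, a2⟩⟩,
        ?_, ?_, ⟨hzN, (key3 _ hzN).2 rfl⟩⟩
      · intro k hk v hv c1 c2
        have hk' : k ≤ n := h.lt_add_one_iff.1 hk
        obtain ⟨c3, c4⟩ := (key2 k hk' v c1).1 c2
        rcases hk'.lt_or_eq with hk'' | rfl
        · obtain ⟨c5, c6⟩ := a3 k hk'' v ((h.le_pr_right _ _).trans c3) c3 c4
          exact ⟨c5.trans le_self_add, (key2 (k + 1) (h.add_one_le_iff.2 hk'') _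
            (c5.trans le_self_add)).2 ⟨c5, c6⟩⟩
        · have : v = y := a4 k le_rfl v ((h.le_pr_right _ _).trans c3) y
            ((h.le_pr_right _ _).trans a5) c3 c4 a5 a6
          rw [this]
          exact ⟨hzN, (key3 _ hzN).2 rfl⟩
      · intro k hk v hv v' hv' c1 c2 c3 c4
        rcases hk.lt_or_eq with hk' | rfl
        · have hk'' : k ≤ n := h.lt_add_one_iff.1 hk'
          obtain ⟨d1, d2⟩ := (key2 k hk'' v c1).1 c2
          obtain ⟨d3, d4⟩ := (key2 k hk'' v' c3).1 c4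
          exact a4 k hk'' v ((h.le_pr_right _ _).trans d1) v' ((h.le_pr_right _ _).trans d3)
            d1 d2 d3 d4
        · rw [(key3 v c1).1 c2, (key3 v' c3).1 c4]
  obtain ⟨c, hc⟩ := key n
  exact ⟨_, _, _, _, hc⟩

/-- Primitive recursion with a parameter. -/
theorem exists_rec {a : M → M} (ha : Fn S a) {g : M → M → M → M}
    (hg : Fn₃ S g) : ∃ F : M → M → M, Fn₂ S F ∧ (∀ e, F 0 e = a e) ∧
      ∀ n e, F (n + 1) e = g n (F n e) e := by
  have hex := fun n e => h.run_exists ha hg e n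
  let F : M → M → M := fun n e => (hex n e).choose
  have hF : ∀ n e, ∃ b w N, Run a g n e (F n e) b w N := fun n e => (hex n e).choose_spec
  have hFu : ∀ n e y b w N, Run a g n e y b w N → F n e = y := by
    intro n e y b w N hR
    obtain ⟨b', w', N', hR'⟩ := hF n e
    exact h.run_unique ha hg hR' hR
  refine ⟨F, ?_, ?_, ?_⟩
  · -- the graph
    have hD : Dec₂ S (fun c q => Run a g (p1 (p1 q)) (p2 (p1 q)) (p2 q) (p1 c) (p1 (p2 c))
        (p2 (p2 c))) :=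
      h.dec_run ha hg (h.fn_p1_comp (h.fn_p1_comp h.fn_p2)) (h.fn_p2_comp (h.fn_p1_comp h.fn_p2))
        (h.fn_p2_comp h.fn_p2) (h.fn_p1_comp h.fn_p1) (h.fn_p1_comp (h.fn_p2_comp h.fn_p1))
        (h.fn_p2_comp (h.fn_p2_comp h.fn_p1))
    have hD' : Dec₂ S (fun c q => p1 c ≠ p2 q ∧ Run a g (p1 (p1 q)) (p2 (p1 q)) (p1 c)
        (p1 (p2 c)) (p1 (p2 (p2 c))) (p2 (p2 (p2 c)))) := by
      refine h.and (h.ne (h.fn_p1_comp h.fn_p1) (h.fn_p2_comp h.fn_p2)) ?_
      exact h.dec_run ha hg (h.fn_p1_comp (h.fn_p1_comp h.fn_p2))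
        (h.fn_p2_comp (h.fn_p1_comp h.fn_p2)) (h.fn_p1_comp h.fn_p1)
        (h.fn_p1_comp (h.fn_p2_comp h.fn_p1)) (h.fn_p1_comp (h.fn_p2_comp (h.fn_p2_comp h.fn_p1)))
        (h.fn_p2_comp (h.fn_p2_comp (h.fn_p2_comp h.fn_p1)))
    have hG := h.delta1 hD hD' ?_
    · refine h.congr hG fun q => ?_
      constructor
      · rintro ⟨c, hc⟩
        exact hFu _ _ _ _ _ _ hc
      · intro hq
        obtain ⟨b, w, N, hR⟩ := hF (p1 (p1 q)) (p2 (p1 q))
        refine ⟨pr b (pr w N), ?_⟩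
        simp only [h.p1_pr, h.p2_pr]
        rw [← hq]
        exact hR
    · intro q
      constructor
      · rintro ⟨c, hc⟩ ⟨c', hc', hc''⟩
        exact hc' (h.run_unique ha hg hc'' hc)
      · intro hn
        obtain ⟨b, w, N, hR⟩ := hF (p1 (p1 q)) (p2 (p1 q))
        by_cases hq : F (p1 (p1 q)) (p2 (p1 q)) = p2 q
        · refine ⟨pr b (pr w N), ?_⟩
          simp only [h.p1_pr, h.p2_pr]
          rw [← hq]
          exact hR
        · exact absurd ⟨pr (F (p1 (p1 q)) (p2 (p1 q))) (pr b (pr w N)),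
            by simp only [h.p1_pr, h.p2_pr]; exact ⟨hq, hR⟩⟩ hn
  · intro e
    obtain ⟨b, w, N, ⟨a1, a2⟩, a3, a4, a5, a6⟩ := hF 0 e
    exact a4 0 le_rfl _ ((h.le_pr_right _ _).trans a5) _ ((h.le_pr_right _ _).trans a1)
      a5 a6 a1 a2
  · intro n e
    obtain ⟨b, w, N, ⟨a1, a2⟩, a3, a4, a5, a6⟩ := hF (n + 1) e
    -- the value at `n` in this run
    have hn : ∃ y ≤ N, pr n y ≤ N ∧ mm b w (pr n y) := by
      refine h.ind_le (P := fun k => ∃ v ≤ N, pr k v ≤ N ∧ mm b w (pr k v)) (n := n) ?_ ?_ ?_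
        le_rfl
      · refine h.bex_le (h.fn_const N) (P := fun v k => pr k v ≤ N ∧ mm b w (pr k v)) ?_
        have t : Fn S (fun q : M => pr (p2 q) (p1 q)) := h.fn_pr h.fn_p2 h.fn_p1
        exact h.and (h.le t (h.fn_const N)) (h.dec_mm (h.fn_const b) (h.fn_const w) t)
      · exact ⟨a e, (h.le_pr_right _ _).trans a1, a1, a2⟩
      · rintro k hk ⟨v, hv, c1, c2⟩
        have d1 := a3 k (hk.trans (h.lt_add_one_iff.2 le_rfl)) v hv c1 c2
        exact ⟨g k v e, (h.le_pr_right _ _).trans d1.1, d1⟩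
    obtain ⟨y, hy, c1, c2⟩ := hn
    have hRn : Run a g n e y b w N :=
      ⟨⟨a1, a2⟩, fun k hk => a3 k (hk.trans (h.lt_add_one_iff.2 le_rfl)),
        fun k hk => a4 k (hk.trans (h.lt_add_one_iff.2 le_rfl).le), ⟨c1, c2⟩⟩
    rw [hFu _ _ _ _ _ _ hRn]
    have d1 := a3 n (h.lt_add_one_iff.2 le_rfl) y hy c1 c2
    exact (a4 (n + 1) le_rfl _ ((h.le_pr_right _ _).trans d1.1) _ ((h.le_pr_right _ _).trans a5)
      d1.1 d1.2 a5 a6).symm

end Base

end Pool.Agent.Helper56.TH
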