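import Pool.Agent.Helper56.TH.Rec

/-!
# First consequences of primitive recursion (MP_6f1bc5_lc)
-/

set_option linter.unusedSectionVars false

universe u

namespace Pool.Agent.Helper56.TH

open Classical

variable {M : Type u} [CommSemiring M] [LinearOrder M] [IsStrictOrderedRing M]
  [CanonicallyOrderedAdd M] {S : Set (Set M)}

namespace Base

variable (h : Base S)
include h

theorem exists_rec₁ (a : M) {g : M → M → M} (hg : Fn₂ S g) :
    ∃ F : M → M, Fn S F ∧ F 0 = a ∧ ∀ n, F (n + 1) = g n (F n) := by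
  obtain ⟨F, hF, h0, hs⟩ := h.exists_rec (a := fun _ => a) (h.fn_const a)
    (g := fun n y _ => g n y) (h.fn_comp₂ hg h.fn_p1 (h.fn_p1_comp h.fn_p2))
  exact ⟨fun n => F n 0, h.fn_left hF 0, h0 0, fun n => hs n 0⟩

theorem exists_pow : ∃ p : M → M, IsPow S p := by
  obtain ⟨F, hF, h0, hs⟩ := h.exists_rec₁ 1 (g := fun _ y => 2 * y)
    (h.fn_mul (h.fn_const 2) h.fn_p2)
  exact ⟨F, hF, h0, hs⟩

theorem mono_of_succ {f : M → M} (hf : Fn S f) (hm : ∀ n, f n ≤ f (n + 1)) {a b : M}
    (hab : a ≤ b) : f a ≤ f b := by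
  obtain ⟨c, rfl⟩ := exists_add_of_le hab
  refine h.ind (P := fun c => f a ≤ f (a + c)) ?_ ?_ ?_ c
  · exact h.le (h.fn_const _) (h.fn_comp hf (h.fn_add (h.fn_const a) h.fn_id))
  · simp
  · intro c hc
    rw [← add_assoc]
    exact hc.trans (hm _)

theorem strictMono_of_succ {f : M → M} (hf : Fn S f) (hm : ∀ n, f n < f (n + 1)) {a b : M}
    (hab : a < b) : f a < f b :=
  lt_of_lt_of_le (hm a) (h.mono_of_succ hf (fun n => (hm n).le) (h.add_one_le_iff.2 hab))

theorem stab {f : M → M} (hf : Fn S f) (hm : ∀ n, f n ≤ f (n + 1)) (a : M)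
    (hb : ∀ n, f n ≤ a) : ∃ n₀, ∀ n, n₀ ≤ n → f n = f n₀ := by
  obtain ⟨x, ⟨n₀, hn₀⟩, hx⟩ := h.sigma_max (P := fun n k => f n = k)
    (h.eq (h.fn_comp hf h.fn_p1) h.fn_p2) ⟨f 0, 0, rfl⟩ a (fun x y hy => hy ▸ hb y)
  refine ⟨n₀, fun n hn => le_antisymm ?_ (h.mono_of_succ hf hm hn)⟩
  rw [hn₀]
  exact hx _ n rfl

/-- two solutions of the same recursion agree -/
theorem rec_unique {F G : M → M} (hF : Fn S F) (hG : Fn S G) {g : M → M → M} (h0 : F 0 = G 0)
    (h1 : ∀ n, F (n + 1) = g n (F n)) (h2 : ∀ n, G (n + 1) = g n (G n)) (n : M) : F n = G n := by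
  refine h.ind (P := fun n => F n = G n) (h.eq hF hG) h0 (fun n hn => ?_) n
  rw [h1, h2, hn]

/-- finite sums with a parameter -/
theorem exists_sum {f : M → M → M} (hf : Fn₂ S f) :
    ∃ F : M → M → M, Fn₂ S F ∧ (∀ e, F 0 e = 0) ∧ ∀ n e, F (n + 1) e = F n e + f n e := by
  obtain ⟨F, hF, h0, hs⟩ := h.exists_rec (a := fun _ => 0) (h.fn_const 0)
    (g := fun n y e => y + f n e) (h.fn_add (h.fn_p1_comp h.fn_p2)
      (h.fn_comp₂ hf h.fn_p1 (h.fn_p2_comp h.fn_p2)))
  exact ⟨F, hF, h0, hs⟩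

theorem strong_bound {P : M → M → Prop} (hP : Dec₂ S P) (u : M) :
    ∃ t, ∀ y < u, (∃ z, P z y) → ∃ z < t, P z y := by
  -- the characteristic function of `∃ z < s, P z y`
  have hE : Dec₂ S (fun y s => ∃ z < s, P z y) := by
    refine h.bex h.fn_p2 (P := fun z p => P z (p1 p)) ?_
    exact h.comp₂ hP h.fn_p1 (h.fn_p1_comp h.fn_p2)
  have hf : Fn₂ S (fun y s => if ∃ z < s, P z y then (1 : M) else 0) :=
    h.fn_ite hE (h.fn_const 1) (h.fn_const 0)
  obtain ⟨F, hF, h0, hs⟩ := h.exists_sum hf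
  have hmono : ∀ y s, (if ∃ z < s, P z y then (1 : M) else 0) ≤
      (if ∃ z < s + 1, P z y then (1 : M) else 0) := by
    intro y s
    split_ifs with h1 h2 h2
    · exact le_rfl
    · exact absurd (h1.imp fun z hz => ⟨hz.1.trans (h.lt_add_one_iff.2 le_rfl), hz.2⟩) h2
    · exact zero_le
    · exact le_rfl
  have hFm : ∀ n s, F n s ≤ F n (s + 1) := by
    intro n s
    refine h.ind (P := fun n => F n s ≤ F n (s + 1)) ?_ ?_ ?_ n
    · exact h.le (h.fn_left hF s) (h.fn_left hF (s + 1))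
    · rw [h0, h0]
    · intro n hn
      rw [hs, hs]
      exact add_le_add hn (hmono n s)
  have hFb : ∀ n s, F n s ≤ n := by
    intro n s
    refine h.ind (P := fun n => F n s ≤ n) (h.le (h.fn_left hF s) h.fn_id) ?_ ?_ n
    · rw [h0]
    · intro n hn
      rw [hs]
      refine add_le_add hn ?_
      split_ifs
      · exact le_rfl
      · exact zero_le
  obtain ⟨t, ht⟩ := h.stab (h.fn_right hF u) (hFm u) u (hFb u)
  refine ⟨t, fun y hy ⟨z, hz⟩ => ?_⟩
  -- compare the stages `t` and `t + z + 1`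
  have hle : t ≤ t + z + 1 := by rw [add_assoc]; exact le_self_add
  have heq : F u (t + z + 1) = F u t := ht _ hle
  have hmono' : ∀ n, F n t ≤ F n (t + z + 1) := fun n =>
    h.mono_of_succ (h.fn_right hF n) (hFm n) hle
  -- pointwise equality by downward reasoning
  have key : ∀ k, k ≤ u → F k (t + z + 1) = F k t := by
    intro k hk
    obtain ⟨d, rfl⟩ := exists_add_of_le hk
    by_contra hne
    have hlt : F k t < F k (t + z + 1) := lt_of_le_of_ne (hmono' k) (fun e => hne e.symm)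
    have : F (k + d) t < F (k + d) (t + z + 1) := by
      refine h.ind (P := fun d => F (k + d) t < F (k + d) (t + z + 1)) ?_ ?_ ?_ d
      · exact h.lt (h.fn_comp₂ hF (h.fn_add (h.fn_const k) h.fn_id) (h.fn_const t))
          (h.fn_comp₂ hF (h.fn_add (h.fn_const k) h.fn_id) (h.fn_const (t + z + 1)))
      · simpa using hlt
      · intro d hd
        rw [← add_assoc, hs, hs]
        refine add_lt_add_of_lt_of_le hd ?_
        split_ifs with h1 h2 h2
        · exact le_rfl
        · exact absurd (h1.imp fun z hz => ⟨lt_of_lt_of_le hz.1 hle, hz.2⟩) h2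
        · exact zero_le
        · exact le_rfl
    rw [heq] at this
    exact lt_irrefl _ this
  have k1 := key y hy.le
  have k2 := key (y + 1) (h.add_one_le_iff.2 hy)
  rw [hs, hs, k1] at k2
  have k3 := add_left_cancel k2
  have hz' : ∃ z' < t + z + 1, P z' y := ⟨z, by
    refine h.lt_add_one_iff.2 le_add_self, hz⟩
  rw [if_pos hz'] at k3
  by_contra hc
  rw [if_neg hc] at k3
  exact one_ne_zero k3

theorem php {f : M → M} (hf : Fn S f) (N : M) (hb : ∀ j ≤ N, f j < N) :
    ∃ i j, i < j ∧ j ≤ N ∧ f i = f j := by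
  by_contra hc
  push Not at hc
  -- C n v = #{j < n | f j < v}
  have hg : Fn₂ S (fun j v => if f j < v then (1 : M) else 0) :=
    h.fn_ite (h.lt (h.fn_comp hf h.fn_p1) h.fn_p2) (h.fn_const 1) (h.fn_const 0)
  obtain ⟨C, hC, C0, Cs⟩ := h.exists_sum hg
  -- E n v = #{j < n | f j = v}
  have hg' : Fn₂ S (fun j v => if f j = v then (1 : M) else 0) :=
    h.fn_ite (h.eq (h.fn_comp hf h.fn_p1) h.fn_p2) (h.fn_const 1) (h.fn_const 0)
  obtain ⟨E, hE, E0, Es⟩ := h.exists_sum hg'
  have hsum : ∀ n v, C n (v + 1) = C n v + E n v := by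
    intro n v
    refine h.ind (P := fun n => C n (v + 1) = C n v + E n v) ?_ ?_ ?_ n
    · exact h.eq (h.fn_left hC (v + 1)) (h.fn_add (h.fn_left hC v) (h.fn_left hE v))
    · rw [C0, C0, E0, add_zero]
    · intro n hn
      rw [Cs, Cs, Es, hn]
      have : (if f n < v + 1 then (1 : M) else 0) =
          (if f n < v then (1 : M) else 0) + (if f n = v then (1 : M) else 0) := by
        rcases lt_trichotomy (f n) v with h1 | h1 | h1
        · rw [if_pos (h1.trans (h.lt_add_one_iff.2 le_rfl)), if_pos h1, if_neg h1.ne, add_zero]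
        · rw [if_pos (h1 ▸ h.lt_add_one_iff.2 le_rfl), if_neg (by rw [h1]; exact lt_irrefl _),
            if_pos h1, zero_add]
        · rw [if_neg (fun h2 => absurd (h.lt_add_one_iff.1 h2) (not_le.2 h1)),
            if_neg (not_lt.2 h1.le), if_neg h1.ne', add_zero]
      rw [this]
      ring
  -- E n v ≤ 1 for n ≤ N + 1
  have hE0 : ∀ v n, n ≤ N + 1 → (∀ j < n, f j ≠ v) → E n v = 0 := by
    intro v n hn
    have hd : Dec S (fun n => (∀ j < n, f j ≠ v) → E n v = 0) := by
      refine h.imp ?_ (h.eq (h.fn_left hE v) (h.fn_const 0))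
      exact h.ball h.fn_id (P := fun j _ => f j ≠ v) (h.ne (h.fn_comp hf h.fn_p1) (h.fn_const v))
    refine h.ind hd ?_ ?_ n
    · intro _; exact E0 v
    · intro n ih hj
      rw [Es, ih (fun j hj' => hj j (hj'.trans (h.lt_add_one_iff.2 le_rfl))),
        if_neg (hj n (h.lt_add_one_iff.2 le_rfl)), add_zero]
  have hE1 : ∀ v n, n ≤ N + 1 → E n v ≤ 1 := by
    intro v n hn
    refine h.ind_le (P := fun n => E n v ≤ 1) (n := N + 1) (h.le (h.fn_left hE v) (h.fn_const 1))
      ?_ ?_ hn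
    · rw [E0]; exact zero_le
    · intro n hn' ih
      rw [Es]
      by_cases hfn : f n = v
      · rw [if_pos hfn, hE0 v n hn'.le (fun j hj hjv => hc j n hj (h.lt_add_one_iff.1 hn')
          (hjv.trans hfn.symm)), zero_add]
      · rw [if_neg hfn, add_zero]
        exact ih
  have hCv : ∀ v, C (N + 1) v ≤ v := by
    intro v
    refine h.ind (P := fun v => C (N + 1) v ≤ v) (h.le (h.fn_right hC _) h.fn_id) ?_ ?_ v
    · have : ∀ n, C n 0 = 0 := by
        intro n
        refine h.ind (P := fun n => C n 0 = 0) (h.eq (h.fn_left hC 0) (h.fn_const 0)) (C0 0) ?_ n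
        intro n hn
        rw [Cs, hn, if_neg (not_lt.2 zero_le), add_zero]
      rw [this]
    · intro v hv
      rw [hsum]
      exact add_le_add hv (hE1 v _ le_rfl)
  have hCN : ∀ n, n ≤ N + 1 → C n N = n := by
    intro n hn
    refine h.ind_le (P := fun n => C n N = n) (n := N + 1) (h.eq (h.fn_left hC N) h.fn_id)
      (C0 N) ?_ hn
    intro n hn' ih
    rw [Cs, ih, if_pos (hb n (h.lt_add_one_iff.1 hn'))]
  have := hCv N
  rw [hCN _ le_rfl] at this
  exact absurd (h.add_one_le_iff.1 this) (lt_irrefl _)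

end Base

/-! ### powers of two -/

namespace IsPow

variable {p : M → M} (hp : IsPow S p) (h : Base S)
include hp h

theorem pos (n : M) : 0 < p n := by
  refine h.ind (P := fun n => 0 < p n) (h.lt (h.fn_const 0) hp.fn) ?_ ?_ n
  · rw [hp.zero]; exact one_pos
  · intro n hn
    rw [hp.succ]
    exact mul_pos two_pos hn

theorem one_le (n : M) : 1 ≤ p n := h.pos_iff.1 (hp.pos h n)

theorem add (m n : M) : p (m + n) = p m * p n := by
  refine h.ind (P := fun n => p (m + n) = p m * p n) ?_ ?_ ?_ n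
  · exact h.eq (h.fn_comp hp.fn (h.fn_add (h.fn_const m) h.fn_id))
      (h.fn_mul (h.fn_const _) hp.fn)
  · rw [add_zero, hp.zero, mul_one]
  · intro n hn
    rw [← add_assoc, hp.succ, hp.succ, hn]
    ring

theorem lt_succ (n : M) : p n < p (n + 1) := by
  rw [hp.succ, two_mul]
  exact lt_add_of_pos_right _ (hp.pos h n)

theorem strictMono {m n : M} (hmn : m < n) : p m < p n :=
  h.strictMono_of_succ hp.fn (hp.lt_succ h) hmn

theorem mono {m n : M} (hmn : m ≤ n) : p m ≤ p n := by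
  rcases hmn.lt_or_eq with h1 | rfl
  · exact (hp.strictMono h h1).le
  · exact le_rfl

theorem lt_iff {m n : M} : p m < p n ↔ m < n := by
  constructor
  · intro h1
    by_contra hc
    exact absurd h1 (not_lt.2 (hp.mono h (not_lt.1 hc)))
  · exact hp.strictMono h

theorem le_iff {m n : M} : p m ≤ p n ↔ m ≤ n := by
  rw [← not_lt, hp.lt_iff h, not_lt]

theorem lt_self (n : M) : n < p n := by
  refine h.ind (P := fun n => n < p n) (h.lt h.fn_id hp.fn) ?_ ?_ n
  · rw [hp.zero]; exact one_pos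
  · intro n hn
    exact lt_of_le_of_lt (h.add_one_le_iff.2 hn) (hp.lt_succ h n)

theorem dvd {m n : M} (hmn : m ≤ n) : p m ∣ p n := by
  obtain ⟨d, rfl⟩ := exists_add_of_le hmn
  rw [hp.add h]
  exact dvd_mul_right _ _

end IsPow

end Pool.Agent.Helper56.TH
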